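import Pool.Agent.Helper90.FJ.Count

/-!
Ample line bundles are positive on all quotient bundles (package for helper9, MP_e09b14_ag).
-/

set_option autoImplicit false
set_option linter.unusedSectionVars false

namespace Pool.Agent.Helper90.FJ

open FF Module MvPolynomial Pool.Agent.Helper9.FJ

variable {K : Type} [Field K] [Algebra ℂ K]

section

variable {I J : Type} [Fintype I] [DecidableEq I] [Fintype J] [DecidableEq J]

/-- regular substitutions do not change bounds of the coefficients -/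
theorem ge_ps {P : Place ℂ K} {c : ℤ} {C : Matrix J I K} (hC : ∀ i j, Ge P 0 (C i j))
    {f : MvPolynomial J K} (hf : ∀ α, Ge P c (coeff α f)) (i0 : I) (α : I →₀ ℕ) :
    Ge P c (coeff α (ps C f)) := by
  have h1 : f = ∑ β ∈ f.support, monomial β (coeff β f) := (support_sum_monomial_coeff f).symm
  rw [h1, map_sum, coeff_sum]
  apply ge_sum
  intro β _
  have h2 : (monomial β (coeff β f) : MvPolynomial J K) =
      MvPolynomial.C (coeff β f) * monomial β 1 := by
    rw [C_mul_monomial, mul_one]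
  rw [h2, _root_.map_mul, ps_C, coeff_C_mul]
  have h3 := CG_ps_monomial (i0 := i0) hC β α
  rw [mul_zero, zero_mul, add_zero] at h3
  have := ge_mul (hf β) h3
  rwa [add_zero] at this

/-- the coefficient of a power of a variable -/
theorem eval_single {R : Type} [CommRing R] {k : ℕ} {f : MvPolynomial I R}
    (hf : f.IsHomogeneous k) (i0 : I) :
    eval (Pi.single i0 1 : I → R) f = coeff (Finsupp.single i0 k) f := by
  rw [hom_eq_sum hf, map_sum, coeff_sum]
  refine Finset.sum_congr rfl fun γ _ => ?_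
  rw [eval_monomial, coeff_monomial, Finsupp.prod_fintype _ _ (fun i => pow_zero _)]
  by_cases h : γ.1 = Finsupp.single i0 k
  · rw [if_pos h, h, Finset.prod_eq_one, mul_one]
    intro i _
    by_cases hi : i = i0
    · subst hi; simp
    · rw [Finsupp.single_eq_of_ne hi, pow_zero]
  · rw [if_neg h]
    have h1 : ∃ i, i ≠ i0 ∧ γ.1 i ≠ 0 := by
      by_contra hc
      push Not at hc
      apply h
      ext i
      by_cases hi : i = i0
      · subst hi
        rw [Finsupp.single_eq_same]
        have h2 := mem_A.1 γ.2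
        rw [← Finset.add_sum_erase _ _ (Finset.mem_univ i), Finset.sum_eq_zero, add_zero] at h2
        · exact h2
        · intro x hx
          exact hc x (Finset.mem_erase.1 hx).1
      · rw [Finsupp.single_eq_of_ne hi]
        exact hc i hi
    obtain ⟨i, hi, hγ⟩ := h1
    rw [Finset.prod_eq_zero (Finset.mem_univ i), mul_zero]
    rw [Pi.single_eq_of_ne hi, zero_pow hγ]

/-- Cramer -/
theorem updateRow_det (g : Matrix I I K) (b : I → K) (l : I) :
    (g.updateRow l b).det = ∑ j, b j * g.adjugate j l := by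
  rw [← Matrix.cramer_transpose_apply, Matrix.cramer_eq_adjugate_mulVec, ← Matrix.adjugate_transpose]
  simp only [Matrix.mulVec, dotProduct, Matrix.transpose_apply]
  exact Finset.sum_congr rfl fun j _ => mul_comm _ _

theorem coord_reg {P : Place ℂ K} {d : ℤ} (M : Matrix J I K) (S : I → J)
    (h : ∀ S' : I → J, Ge P (-d) (M.submatrix S' id).det)
    (hS : P.ord (M.submatrix S id).det = -d) (m : J) (l : I) :
    Ge P 0 ((M * (M.submatrix S id)⁻¹) m l) := by
  set g := M.submatrix S id with hg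
  have h1 : (M * g⁻¹) m l = g.det⁻¹ * (M.submatrix (Function.update S l m) id).det := by
    have h2 : M.submatrix (Function.update S l m) id = g.updateRow l (M m) := by
      ext i j
      rw [Matrix.submatrix_apply, Matrix.updateRow_apply]
      by_cases hi : i = l
      · subst hi; simp
      · rw [if_neg hi, Function.update_of_ne hi]; rfl
    rw [h2, updateRow_det, Matrix.mul_apply, Matrix.inv_def, Finset.mul_sum]
    refine Finset.sum_congr rfl fun j _ => ?_
    rw [Matrix.smul_apply, smul_eq_mul, Ring.inverse_eq_inv]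
    ring
  rw [h1]
  have h3 : Ge P d g.det⁻¹ := Or.inr (by rw [P.ord_inv, hS, neg_neg])
  have := ge_mul h3 (h (Function.update S l m))
  rwa [add_neg_cancel] at this

end

/-- two points -/
theorem exists_two [IsFF ℂ K] : ∃ P Q : Place ℂ K, P ≠ Q := by
  obtain ⟨x, hx⟩ := IsFF.exists_transcendental (k := ℂ) (K := K)
  have h1 := ddeg_polar_pos hx
  have h2 := ddeg_divisor (k := ℂ) x
  by_contra hc
  push Not at hc
  obtain ⟨P, -⟩ := exists_place (k := ℂ) (K := K)
  have h3 : ∀ D : Place ℂ K →₀ ℤ, D = Finsupp.single P (D P) := by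
    intro D
    ext Q
    rw [hc Q P, Finsupp.single_eq_same]
  rw [h3 (divisor ℂ x), ddeg_single_one, divisor_apply] at h2
  rw [h3 (polar x), ddeg_single_one, polar_apply, h2] at h1
  simp at h1

/-- a divisor which bounds the orders of finitely many functions -/
theorem exists_div [IsFF ℂ K] {B : Type} [Fintype B] (F : Place ℂ K → B → K)
    (hF : ∃ f : B → K, {P | F P ≠ f}.Finite) :
    ∃ c : Place ℂ K →₀ ℤ, ∀ P b, Ge P (-c P) (F P b) := by
  classical
  obtain ⟨f, hf⟩ := hF
  let c1 : Place ℂ K →₀ ℤ := ∑ b, polar (f b)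
  have hc1 : ∀ P b, Ge P (-c1 P) (f b) := by
    intro P b
    by_cases h0 : f b = 0
    · exact Or.inl h0
    right
    have h1 : polar (f b) P ≤ c1 P := by
      change _ ≤ (∑ b, polar (f b)) P
      rw [Finsupp.finsetSum_apply]
      exact Finset.single_le_sum (f := fun b => polar (f b) P) (fun b _ => polar_nonneg (f b) P)
        (Finset.mem_univ b)
    rw [polar_apply] at h1
    have := le_max_left (-P.ord (f b)) 0
    omega
  let c2 : Place ℂ K →₀ ℤ := Finsupp.onFinset hf.toFinset
    (fun P => if F P = f then 0 else ∑ b, |P.ord (F P b)| + |c1 P|) (by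
      intro P hP
      rw [Set.Finite.mem_toFinset]
      intro h
      exact hP (if_pos h))
  refine ⟨c1 + c2, fun P b => ?_⟩
  rw [Finsupp.add_apply]
  by_cases h : F P = f
  · have : c2 P = 0 := if_pos h
    rw [this, add_zero, h]
    exact hc1 P b
  · have h2 : c2 P = ∑ b, |P.ord (F P b)| + |c1 P| := if_neg h
    right
    rw [h2]
    have h3 : |P.ord (F P b)| ≤ ∑ b, |P.ord (F P b)| :=
      Finset.single_le_sum (f := fun b => |P.ord (F P b)|) (fun b _ => abs_nonneg _)
        (Finset.mem_univ b)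
    have h4 := neg_abs_le (P.ord (F P b))
    have h5 := neg_abs_le (c1 P)
    omega

section main

variable [IsFF ℂ K] {r : ℕ}

theorem loc_eq (E : Bundle K r) (P : Place ℂ K) (s : MvPolynomial (Fin r) K) :
    loc E P s = ps (E.B P)⁻¹ s := rfl

/-- the value at a point of the projective bundle is the value of the reduction -/
theorem value_iff {E : Bundle K r} {k : ℕ} {N : Place ℂ K →₀ ℤ} {s : MvPolynomial (Fin r) K}
    (hs : IsSec E k N s) (P : Place ℂ K) {I : Type} [Fintype I] [DecidableEq I]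
    (CO : Matrix (Fin r) I P.O) (ζ : I → ℂ) :
    Ge P (1 - N P) (eval (fun i => algebraMap ℂ K (ζ i)) (ps (CO.map (io P)) (loc E P s))) ↔
      Ge P (1 - N P) (eval (pt E P ((CO.map (theta P)).mulVec ζ)) s) := by
  obtain ⟨t, -, ht⟩ := P.surj
  have ht0 : t ≠ 0 := by rintro rfl; rw [P.ord_zero] at ht; omega
  have h1 : ∀ α, Ge P 0 (coeff α (C (t ^ (N P)) * loc E P s)) := by
    intro α
    rw [coeff_C_mul]
    have h2 : Ge P (N P) (t ^ (N P)) := Or.inr (by rw [P.ord_zpow, ht]; simp)
    have := ge_mul h2 (hs.2 P α)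
    rwa [add_neg_cancel] at this
  obtain ⟨F, hF⟩ := exists_lift P h1
  have hscale : ∀ x : K, Ge P (1 - N P) x ↔ Ge P 1 (t ^ (N P) * x) := by
    intro x
    constructor
    · intro h
      have h2 : Ge P (N P) (t ^ (N P)) := Or.inr (by rw [P.ord_zpow, ht]; simp)
      have := ge_mul h2 h
      rwa [add_sub_cancel] at this
    · intro h
      have h2 : Ge P (-N P) (t ^ (-N P)) := Or.inr (by rw [P.ord_zpow, ht]; simp)
      have := ge_mul h2 h
      rw [← mul_assoc, ← zpow_add₀ ht0, neg_add_cancel, zpow_zero, one_mul] at this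
      refine ge_mono ?_ this
      omega
  rw [hscale, hscale]
  have hL : t ^ (N P) * eval (fun i => algebraMap ℂ K (ζ i)) (ps (CO.map (io P)) (loc E P s)) =
      io P (eval (fun i => cst P (ζ i)) (ps CO F)) := by
    rw [io_eval, map_ps, hF, _root_.map_mul, ps_C, _root_.map_mul, eval_C]
    rfl
  have hR : t ^ (N P) * eval (pt E P ((CO.map (theta P)).mulVec ζ)) s =
      io P (eval (fun i => cst P ((CO.map (theta P)).mulVec ζ i)) F) := by
    rw [io_eval, hF, _root_.map_mul, eval_C, loc_eq, eval_ps]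
    rfl
  rw [hL, hR, ← theta_eq_zero, ← theta_eq_zero, theta_eval, theta_eval, map_ps, eval_ps]
  simp only [theta_cst]

/-- a form of degree zero does not separate points -/
theorem pos_degree {E : Bundle K r} (hr : 2 ≤ r) {k : ℕ} {N : Place ℂ K →₀ ℤ}
    (h : VeryAmple E k N) : 0 < k := by
  by_contra hk
  have hk0 : k = 0 := by omega
  subst hk0
  obtain ⟨P, -⟩ := exists_place (k := ℂ) (K := K)
  let i0 : Fin r := ⟨0, by omega⟩
  let i1 : Fin r := ⟨1, by omega⟩
  have h01 : i0 ≠ i1 := by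
    intro h
    have := congrArg Fin.val h
    simp [i0, i1] at this
  obtain ⟨s, hs, h1, h2⟩ := h.2.1 P P (Pi.single i0 1) (Pi.single i1 1)
    (by
      intro h
      have := congrFun h i0
      simp at this)
    (by
      intro h
      have := congrFun h i1
      simp at this)
    (by
      rintro - ⟨c, hc⟩
      have := congrFun hc i1
      rw [Pi.smul_apply, Pi.single_eq_same, Pi.single_eq_of_ne h01.symm, smul_zero] at this
      exact one_ne_zero this)
  have h3 : s = C (coeff 0 s) := by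
    rw [← totalDegree_eq_zero_iff_eq_C]
    have := (totalDegree_zero_iff_isHomogeneous (p := s)).2 hs.1
    exact this
  apply h2
  rw [h3, eval_C]
  rw [h3, eval_C] at h1
  exact h1

/-- **Ample line bundles are positive on all quotient bundles.** -/
theorem pos_of_ample {E : Bundle K r} {a : ℕ} {b : Place ℂ K →₀ ℤ} (hr : 2 ≤ r)
    (h : IsAmple E a b) : Pos E a b := by
  classical
  obtain ⟨M, hM, hVA⟩ := h
  have hk := pos_degree hr hVA
  refine ⟨Nat.pos_of_mul_pos_left hk, ?_⟩
  intro ρ Λ d hρ hQ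
  set k := M * a with hkdef
  set N := M • b with hN
  -- the local bases of the quotient
  choose hQ1 S hS1 hS2 using hQ
  let g0 : Place ℂ K → Matrix (Fin ρ) (Fin ρ) K := fun P => (E.B P * Λ).submatrix (S P) id
  have hg0 : ∀ P, (g0 P).det ≠ 0 := hS1
  let Cm : Place ℂ K → Matrix (Fin r) (Fin ρ) K := fun P => E.B P * Λ * (g0 P)⁻¹
  have hCreg : ∀ P m l, Ge P 0 (Cm P m l) := fun P m l =>
    coord_reg (E.B P * Λ) (S P) (hQ1 P) (hS2 P) m l
  have hCid : ∀ P l l', Cm P (S P l) l' = (1 : Matrix (Fin ρ) (Fin ρ) K) l l' := by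
    intro P l l'
    have h1 : (g0 P * (g0 P)⁻¹) l l' = (1 : Matrix (Fin ρ) (Fin ρ) K) l l' := by
      rw [Matrix.mul_nonsing_inv _ (isUnit_iff_ne_zero.2 (hg0 P))]
    rw [← h1]
    rfl
  let CO : ∀ P : Place ℂ K, Matrix (Fin r) (Fin ρ) P.O := fun P =>
    Matrix.of fun m l => ⟨Cm P m l, hCreg P m l⟩
  have hCO : ∀ P, (CO P).map (io P) = Cm P := fun P => rfl
  let ξ : Place ℂ K → (Fin ρ → ℂ) → Fin r → ℂ := fun P ζ => ((CO P).map (theta P)).mulVec ζ
  have hξ : ∀ P ζ l, ξ P ζ (S P l) = ζ l := by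
    intro P ζ l
    change ∑ l', theta P (CO P (S P l) l') * ζ l' = ζ l
    rw [Finset.sum_eq_single l]
    · have : CO P (S P l) l = 1 := Subtype.ext (by
        change Cm P (S P l) l = 1
        rw [hCid, Matrix.one_apply_eq])
      rw [this, _root_.map_one, one_mul]
    · intro l' _ hl'
      have : CO P (S P l) l' = 0 := Subtype.ext (by
        change Cm P (S P l) l' = 0
        rw [hCid, Matrix.one_apply_ne hl'.symm])
      rw [this, _root_.map_zero, zero_mul]
    · intro h; exact absurd (Finset.mem_univ _) h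
  have hξ0 : ∀ P ζ, ζ ≠ 0 → ξ P ζ ≠ 0 := by
    intro P ζ hζ h0
    apply hζ
    ext l
    rw [← hξ P ζ l, h0]
    rfl
  obtain ⟨P0, P1, hP01⟩ := exists_two (K := K)
  let i0 : Fin ρ := ⟨0, hρ⟩
  -- the coordinates
  let h := (g0 P1)⁻¹
  have hdeth : h.det ≠ 0 := by
    change (g0 P1)⁻¹.det ≠ 0
    rw [Matrix.det_nonsing_inv, Ring.inverse_eq_inv]
    exact inv_ne_zero (hg0 P1)
  let g : Place ℂ K → Matrix (Fin ρ) (Fin ρ) K := fun P => g0 P * h
  have hgdet : ∀ P, (g P).det ≠ 0 := by
    intro P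
    change (g0 P * h).det ≠ 0
    rw [Matrix.det_mul]
    exact mul_ne_zero (hg0 P) hdeth
  have hg1 : g P1 = 1 := Matrix.mul_nonsing_inv _ (isUnit_iff_ne_zero.2 (hg0 P1))
  let Λ' : Matrix (Fin r) (Fin ρ) K := Λ * h
  have hΛ' : ∀ P, Λ' * (g P)⁻¹ = (E.B P)⁻¹ * Cm P := by
    intro P
    change Λ * h * (g0 P * h)⁻¹ = (E.B P)⁻¹ * (E.B P * Λ * (g0 P)⁻¹)
    rw [Matrix.mul_inv_rev, Matrix.mul_assoc Λ, ← Matrix.mul_assoc h,
      Matrix.mul_nonsing_inv _ (isUnit_iff_ne_zero.2 hdeth), Matrix.one_mul, Matrix.mul_assoc,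
      ← Matrix.mul_assoc (E.B P)⁻¹, Matrix.nonsing_inv_mul _ (isUnit_iff_ne_zero.2 (E.det_ne P)),
      Matrix.one_mul]
  have hps : ∀ P s, ps (g P)⁻¹ (ps Λ' s) = ps (Cm P) (loc E P s) := by
    intro P s
    rw [ps_ps, hΛ', ← ps_ps, loc_eq]
  let V : Set (MvPolynomial (Fin ρ) K) := {v | ∃ s, IsSec E k N s ∧
    Ge P0 (1 - N P0) (eval (pt E P0 (ξ P0 (Pi.single i0 1))) s) ∧ v = ps Λ' s}
  have hV : ∀ v ∈ V, v.IsHomogeneous k := by
    rintro v ⟨s, hs, -, rfl⟩
    exact ps_hom _ hs.1
  -- the bound of the inverse matrices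
  obtain ⟨c, hc⟩ : ∃ c : Place ℂ K →₀ ℤ, ∀ P i j, Ge P (-c P) ((g P)⁻¹ i j) := by
    let L : Matrix (Fin ρ) (Fin r) K := (E.B P1).submatrix (S P1) id
    have hL : L * Λ' = 1 := by
      have h1 : L * Λ' = g P1 := by
        change L * (Λ * h) = g0 P1 * h
        rw [← Matrix.mul_assoc]
        rfl
      rw [h1, hg1]
    have h1 : ∀ P, (g P)⁻¹ = L * (E.B P)⁻¹ * Cm P := by
      intro P
      rw [Matrix.mul_assoc, ← hΛ', ← Matrix.mul_assoc, hL, Matrix.one_mul]
    obtain ⟨c, hc⟩ := exists_div (B := Fin ρ × Fin r) (fun P x => (L * (E.B P)⁻¹) x.1 x.2)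
      ⟨fun x => L x.1 x.2, E.fin.subset (by
        intro P hP hB
        apply hP
        rw [hB, inv_one, Matrix.mul_one])⟩
    refine ⟨c, fun P i j => ?_⟩
    rw [h1, Matrix.mul_apply]
    apply ge_sum
    intro l _
    have := ge_mul (hc P (i, l)) (hCreg P l j)
    rwa [add_zero] at this
  have hd : ∀ P, P.ord (g P).det = -(d - divisor ℂ h.det) P := by
    intro P
    change P.ord (g0 P * h).det = _
    rw [Matrix.det_mul, P.ord_mul (hg0 P) hdeth, Finsupp.sub_apply, divisor_apply]
    have := hS2 P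
    change P.ord (g0 P).det = _ at this
    rw [this]
    ring
  have key := pos_of_bpf (k := k) (V := V) hV g hgdet (d - divisor ℂ h.det) N c hd hc
    (by
      rintro P v ⟨s, hs, -, rfl⟩ α
      rw [hps]
      exact ge_ps (hCreg P) (hs.2 P) i0 α)
    P0 i0
    (by
      rintro v ⟨s, hs, hs0, rfl⟩
      rw [hps, ← eval_single (ps_hom _ (by rw [loc_eq]; exact ps_hom _ hs.1)) i0]
      have h1 := (value_iff hs P0 (CO P0) (Pi.single i0 1)).2 hs0
      rw [hCO] at h1
      have h2 : (fun i => algebraMap ℂ K ((Pi.single i0 1 : Fin ρ → ℂ) i)) = Pi.single i0 1 := by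
        ext i
        by_cases hi : i = i0
        · subst hi; simp
        · simp [Pi.single_eq_of_ne hi]
      rwa [h2] at h1)
    P1 hg1
    (by
      intro ζ hζ
      obtain ⟨s, hs, hs0, hs1⟩ := hVA.2.1 P0 P1 (ξ P0 (Pi.single i0 1)) (ξ P1 ζ)
        (hξ0 P0 _ (by
          intro h
          have := congrFun h i0
          simp at this))
        (hξ0 P1 ζ hζ) (fun h => absurd h hP01)
      refine ⟨ps Λ' s, ⟨s, hs, hs0, rfl⟩, ?_⟩
      intro hc
      apply hs1
      rw [← value_iff hs P1 (CO P1) ζ, hCO, ← hps, hg1, inv_one, ps_one]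
      exact hc)
  rw [ddeg_sub, ddeg_divisor, sub_zero, Fintype.card_fin, hN, ddeg_nsmul, hkdef] at key
  push_cast at key
  have hMz : (0 : ℤ) < M := by exact_mod_cast hM
  have h5 : (M : ℤ) * (a * ddeg d + ρ * ddeg b) = M * a * ddeg d + ρ * (M * ddeg b) := by ring
  rw [← h5] at key
  exact (mul_pos_iff_of_pos_left hMz).1 key

end main

end Pool.Agent.Helper90.FJ
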