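import Pool.Agent.Helper9.FJ.Defs

/-!
Duality on a curve (package for helper9, MP_e09b14_ag): an obstruction to strong approximation is
given by a rational linear form with values in the differentials. The proof is the theory of Weil
differentials, with the adeles replaced by the finitely supported functions on the places.
-/

set_option autoImplicit false
set_option linter.unusedSectionVars false

namespace Pool.Agent.Helper90.FJ

open FF Module Pool.Agent.Helper9.FJ

variable {K : Type} [Field K] [Algebra ℂ K]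

section Ge

variable {P : Place ℂ K} {a b c : ℤ} {f g : K}

theorem ge_zero : Ge P c 0 := Or.inl rfl

theorem ge_add (hf : Ge P c f) (hg : Ge P c g) : Ge P c (f + g) := by
  rcases hf with rfl | hf
  · rwa [zero_add]
  rcases hg with rfl | hg
  · rw [add_zero]; exact Or.inr hf
  by_cases hf0 : f = 0
  · rw [hf0, zero_add]; exact Or.inr hg
  by_cases hg0 : g = 0
  · rw [hg0, add_zero]; exact Or.inr hf
  by_cases h : f + g = 0
  · exact Or.inl h
  · exact Or.inr ((le_min hf hg).trans (P.ord_add hf0 hg0 h))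

theorem ge_neg (hf : Ge P c f) : Ge P c (-f) := by
  rcases hf with rfl | hf
  · rw [neg_zero]; exact ge_zero
  · right; rwa [P.ord_neg]

theorem ge_sub (hf : Ge P c f) (hg : Ge P c g) : Ge P c (f - g) := by
  rw [sub_eq_add_neg]; exact ge_add hf (ge_neg hg)

theorem ge_mul (hf : Ge P a f) (hg : Ge P b g) : Ge P (a + b) (f * g) := by
  by_cases hf0 : f = 0
  · rw [hf0, zero_mul]; exact ge_zero
  by_cases hg0 : g = 0
  · rw [hg0, mul_zero]; exact ge_zero
  right
  rw [P.ord_mul hf0 hg0]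
  exact add_le_add (hf.resolve_left hf0) (hg.resolve_left hg0)

theorem ge_mono (h : a ≤ b) (hf : Ge P b f) : Ge P a f := hf.imp_right h.trans

theorem ge_smul (z : ℂ) (hf : Ge P c f) : Ge P c (z • f) := by
  have h1 : Ge P 0 (algebraMap ℂ K z) := by
    by_cases hz : z = 0
    · left; rw [hz, map_zero]
    · right; rw [P.ord_const hz]
  have := ge_mul h1 hf
  rwa [zero_add, ← Algebra.smul_def] at this

theorem ge_ord : Ge P (P.ord f) f := Or.inr le_rfl

theorem reg_iff_ge : P.Reg f ↔ Ge P 0 f := Iff.rfl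

end Ge

section one

variable [IsFF ℂ K]

theorem algebraMap_RF_bijective (P : Place ℂ K) : Function.Bijective (algebraMap ℂ P.RF) :=
  IsAlgClosed.algebraMap_bijective_of_isIntegral

/-- the degrees of the points are one -/
theorem deg_one (P : Place ℂ K) : P.deg = 1 := by
  unfold Place.deg
  have e : ℂ ≃ₗ[ℂ] P.RF :=
    LinearEquiv.ofBijective (Algebra.linearMap ℂ P.RF) (algebraMap_RF_bijective P)
  rw [← e.finrank_eq, finrank_self]

/-- leading coefficients -/
theorem exists_lead (P : Place ℂ K) {t : K} (ht : P.ord t = 1) (n : ℤ) {z : K} (hz : Ge P n z) :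
    ∃ c : ℂ, Ge P (n + 1) (z - c • t ^ n) := by
  have ht0 : t ≠ 0 := by rintro rfl; rw [P.ord_zero] at ht; omega
  have h1 : Ge P (-n) (t ^ (-n)) := Or.inr (by rw [P.ord_zpow, ht]; simp)
  have h2 : P.Reg (z * t ^ (-n)) := by
    have := ge_mul hz h1
    rwa [add_neg_cancel] at this
  obtain ⟨c, hc⟩ := (algebraMap_RF_bijective P).2 (P.red (z * t ^ (-n)))
  refine ⟨c, ?_⟩
  have h3 : P.red (z * t ^ (-n) - algebraMap ℂ K c) = 0 := by
    rw [P.red_sub h2 (P.reg_const c), ← hc, P.algebraMap_RF, sub_self]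
  have h4 : P.Reg (z * t ^ (-n) - algebraMap ℂ K c) := by
    rw [sub_eq_add_neg]; exact P.reg_add h2 (P.reg_neg (P.reg_const c))
  rw [P.red_eq_zero_iff h4] at h3
  have h5 : Ge P 1 (z * t ^ (-n) - algebraMap ℂ K c) := h3.imp_right (by omega)
  have h6 : Ge P n (t ^ n) := Or.inr (by rw [P.ord_zpow, ht]; simp)
  have h7 := ge_mul h5 h6
  rw [sub_mul, mul_assoc, ← zpow_add₀ ht0, neg_add_cancel, zpow_zero, mul_one,
    ← Algebra.smul_def, add_comm 1 n] at h7
  exact h7

theorem ddeg_single_one (P : Place ℂ K) (n : ℤ) : ddeg (Finsupp.single P n) = n := by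
  rw [ddeg_single, deg_one]; simp

end one

/-- The finitely supported adeles which differ from a rational function by elements of order at least
`-D P`. -/
def NN (D : Place ℂ K →₀ ℤ) : Submodule ℂ (Place ℂ K →₀ K) where
  carrier := {s | ∃ f : K, ∀ Q, Ge Q (-D Q) (s Q - f)}
  zero_mem' := ⟨0, fun Q => by rw [Finsupp.zero_apply, sub_zero]; exact ge_zero⟩
  add_mem' := by
    rintro s s' ⟨f, hf⟩ ⟨f', hf'⟩
    refine ⟨f + f', fun Q => ?_⟩
    have := ge_add (hf Q) (hf' Q)
    rwa [sub_add_sub_comm] at this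
  smul_mem' := by
    rintro c s ⟨f, hf⟩
    refine ⟨c • f, fun Q => ?_⟩
    have := ge_smul c (hf Q)
    rwa [smul_sub] at this

theorem mem_NN {D : Place ℂ K →₀ ℤ} {s : Place ℂ K →₀ K} :
    s ∈ NN D ↔ ∃ f : K, ∀ Q, Ge Q (-D Q) (s Q - f) := Iff.rfl

theorem NN_mono {D E : Place ℂ K →₀ ℤ} (h : D ≤ E) : NN D ≤ NN E := by
  rintro s ⟨f, hf⟩
  exact ⟨f, fun Q => ge_mono (neg_le_neg (h Q)) (hf Q)⟩

section step

variable [IsFF ℂ K]

open Classical in
/-- adding a point: the new elements -/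
theorem NN_step (D : Place ℂ K →₀ ℤ) (P : Place ℂ K) {t : K} (ht : P.ord t = 1) :
    NN (D + Finsupp.single P 1) =
      NN D ⊔ Submodule.span ℂ {Finsupp.single P (t ^ (-(D P + 1)))} := by
  apply le_antisymm
  · rintro s ⟨f, hf⟩
    have h1 := hf P
    rw [Finsupp.add_apply, Finsupp.single_eq_same] at h1
    obtain ⟨c, hc⟩ := exists_lead P ht _ h1
    rw [Submodule.mem_sup]
    refine ⟨s - c • Finsupp.single P (t ^ (-(D P + 1))), ⟨f, fun Q => ?_⟩,
      c • Finsupp.single P (t ^ (-(D P + 1))),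
      Submodule.smul_mem _ _ (Submodule.mem_span_singleton_self _), by rw [sub_add_cancel]⟩
    rw [Finsupp.sub_apply, Finsupp.smul_apply]
    by_cases hQ : Q = P
    · subst hQ
      rw [Finsupp.single_eq_same, sub_right_comm]
      refine ge_mono ?_ hc
      omega
    · rw [Finsupp.single_eq_of_ne hQ, smul_zero, sub_zero]
      have h2 := hf Q
      rwa [Finsupp.add_apply, Finsupp.single_eq_of_ne hQ, add_zero] at h2
  · rw [sup_le_iff]
    refine ⟨NN_mono ?_, ?_⟩
    · intro Q
      rw [Finsupp.add_apply]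
      have : (0 : ℤ) ≤ Finsupp.single P 1 Q := by
        by_cases hQ : Q = P
        · subst hQ; simp
        · rw [Finsupp.single_eq_of_ne hQ]
      omega
    · rw [Submodule.span_le, Set.singleton_subset_iff]
      refine ⟨0, fun Q => ?_⟩
      rw [sub_zero]
      by_cases hQ : Q = P
      · subst hQ
        rw [Finsupp.single_eq_same, Finsupp.add_apply, Finsupp.single_eq_same]
        right
        rw [Q.ord_zpow, ht]; omega
      · rw [Finsupp.single_eq_of_ne hQ]
        exact ge_zero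

open Classical in
/-- adding a point: the new element is in the old space iff there is a new function -/
theorem single_mem_NN (D : Place ℂ K →₀ ℤ) (P : Place ℂ K) {t : K} (ht : P.ord t = 1) :
    Finsupp.single P (t ^ (-(D P + 1))) ∈ NN D ↔
      ell (D + Finsupp.single P 1) = ell D + 1 := by
  have hle : D ≤ D + Finsupp.single P 1 := by
    intro Q
    rw [Finsupp.add_apply]
    have : (0 : ℤ) ≤ Finsupp.single P 1 Q := by
      by_cases hQ : Q = P
      · subst hQ; simp
      · rw [Finsupp.single_eq_of_ne hQ]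
    omega
  have hup := ell_le hle
  rw [ddeg_add, ddeg_single_one] at hup
  have ht0 : t ≠ 0 := by rintro rfl; rw [P.ord_zero] at ht; omega
  constructor
  · rintro ⟨f, hf⟩
    have h1 := hf P
    rw [Finsupp.single_eq_same] at h1
    have hord : P.ord (t ^ (-(D P + 1))) = -(D P + 1) := by rw [P.ord_zpow, ht]; simp
    have hne : f ≠ 0 := by
      rintro rfl
      rw [sub_zero] at h1
      have := h1.resolve_left (zpow_ne_zero _ ht0)
      rw [hord] at this; omega
    have hfP : P.ord f = -(D P + 1) := by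
      by_cases h0 : t ^ (-(D P + 1)) - f = 0
      · rw [sub_eq_zero] at h0
        rw [← h0, hord]
      · have h2 := h1.resolve_left h0
        have h3 := P.ord_add_eq (f := t ^ (-(D P + 1))) (g := -(t ^ (-(D P + 1)) - f))
          (zpow_ne_zero _ ht0) (neg_ne_zero.2 h0) (by rw [P.ord_neg, hord]; omega)
        rw [neg_sub, add_sub_cancel, hord] at h3
        exact h3.2
    have hf1 : f ∈ LL (D + Finsupp.single P 1) := by
      right
      intro Q
      rw [Finsupp.add_apply]
      by_cases hQ : Q = P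
      · subst hQ; rw [Finsupp.single_eq_same, hfP]
      · rw [Finsupp.single_eq_of_ne hQ, add_zero]
        have h2 := hf Q
        rw [Finsupp.single_eq_of_ne hQ, zero_sub] at h2
        have h3 := ge_neg h2
        rw [neg_neg] at h3
        exact h3.resolve_left hne
    have hf2 : f ∉ LL D := by
      intro h
      have := (h.resolve_left hne) P
      rw [hfP] at this; omega
    have hlt : ell D < ell (D + Finsupp.single P 1) := by
      unfold ell
      have : LL D < LL (D + Finsupp.single P 1) :=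
        lt_of_le_of_ne (LL_mono hle) (fun h => hf2 (h ▸ hf1))
      exact_mod_cast Submodule.finrank_lt_finrank_of_lt this
    omega
  · intro h
    have hex : ∃ f ∈ LL (D + Finsupp.single P 1), f ∉ LL D := by
      by_contra hc
      push Not at hc
      have : LL (D + Finsupp.single P 1) ≤ LL D := hc
      have h2 := Submodule.finrank_mono this
      unfold ell at h
      have h3 : (finrank ℂ (LL (D + Finsupp.single P 1)) : ℤ) ≤ finrank ℂ (LL D) := by
        exact_mod_cast h2
      omega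
    obtain ⟨f, hf1, hf2⟩ := hex
    have hne : f ≠ 0 := by rintro rfl; exact hf2 (Submodule.zero_mem _)
    have hQ : ∀ Q, Q ≠ P → -D Q ≤ Q.ord f := by
      intro Q hQ
      have := (hf1.resolve_left hne) Q
      rwa [Finsupp.add_apply, Finsupp.single_eq_of_ne hQ, add_zero] at this
    have hP : ¬ -D P ≤ P.ord f := by
      intro hP
      apply hf2
      right
      intro Q
      by_cases h : Q = P
      · rw [h]; exact hP
      · exact hQ Q h
    have hP' : -(D P + 1) ≤ P.ord f := by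
      have := (hf1.resolve_left hne) P
      rwa [Finsupp.add_apply, Finsupp.single_eq_same] at this
    obtain ⟨c, hc⟩ := exists_lead P ht (-(D P + 1)) (Or.inr hP' : Ge P _ f)
    have hc0 : c ≠ 0 := by
      rintro rfl
      rw [zero_smul, sub_zero] at hc
      have := hc.resolve_left hne
      omega
    refine ⟨c⁻¹ • f, fun Q => ?_⟩
    by_cases h : Q = P
    · subst h
      rw [Finsupp.single_eq_same]
      have h1 := ge_smul (-c⁻¹) hc
      have e : (-c⁻¹) • (f - c • t ^ (-(D Q + 1))) = t ^ (-(D Q + 1)) - c⁻¹ • f := by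
        rw [smul_sub, smul_smul, neg_mul, inv_mul_cancel₀ hc0, neg_smul, neg_smul, one_smul]
        abel
      rw [e] at h1
      refine ge_mono ?_ h1
      omega
    · rw [Finsupp.single_eq_of_ne h, zero_sub]
      exact ge_neg (ge_smul _ (Or.inr (hQ Q h)))

end step

/-- the functionals on the adeles which vanish on the rational functions and on the adeles of order
at least `-D` -/
noncomputable def Om (D : Place ℂ K →₀ ℤ) : Submodule ℂ (Dual ℂ (Place ℂ K →₀ K)) :=
  (NN D).dualAnnihilator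

theorem mem_Om {D : Place ℂ K →₀ ℤ} {l : Dual ℂ (Place ℂ K →₀ K)} :
    l ∈ Om D ↔ ∀ s ∈ NN D, l s = 0 := Submodule.mem_dualAnnihilator l

section index

variable [IsFF ℂ K]

open Classical in
theorem le_add_single (D : Place ℂ K →₀ ℤ) (P : Place ℂ K) : D ≤ D + Finsupp.single P 1 := by
  intro Q
  rw [Finsupp.add_apply]
  have : (0 : ℤ) ≤ Finsupp.single P 1 Q := by
    by_cases hQ : Q = P
    · subst hQ; simp
    · rw [Finsupp.single_eq_of_ne hQ]
  omega

variable {W : Place ℂ K →₀ ℤ} {γ : ℤ}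

theorem NN_add_single (hγ : ∀ D : Place ℂ K →₀ ℤ, ell D - ell (W - D) = ddeg D - γ)
    (D : Place ℂ K →₀ ℤ) (P : Place ℂ K) (h : ell (W - D) = 0) :
    NN (D + Finsupp.single P 1) = NN D := by
  obtain ⟨t, -, ht⟩ := P.surj
  rw [NN_step D P ht, sup_eq_left, Submodule.span_le, Set.singleton_subset_iff]
  change _ ∈ NN D
  rw [single_mem_NN D P ht]
  have h1 := hγ D
  have h2 := hγ (D + Finsupp.single P 1)
  have h3 : ell (W - (D + Finsupp.single P 1)) ≤ ell (W - D) :=
    ell_mono (sub_le_sub_left (le_add_single D P) W)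
  have h4 := ell_nonneg (W - (D + Finsupp.single P 1))
  rw [ddeg_add, ddeg_single_one] at h2
  omega

theorem NN_add (hγ : ∀ D : Place ℂ K →₀ ℤ, ell D - ell (W - D) = ddeg D - γ)
    (F : Place ℂ K →₀ ℕ) : ∀ D : Place ℂ K →₀ ℤ, ell (W - D) = 0 →
      ell (W - (D + nd F)) = 0 ∧ NN (D + nd F) = NN D := by
  induction F using Finsupp.induction_linear with
  | zero =>
    intro D h
    rw [map_zero, add_zero]
    exact ⟨h, rfl⟩
  | add F G hF hG =>
    intro D h
    rw [map_add, ← add_assoc]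
    obtain ⟨h1, h2⟩ := hF D h
    obtain ⟨h3, h4⟩ := hG _ h1
    exact ⟨h3, h4.trans h2⟩
  | single P n =>
    induction n with
    | zero =>
      intro D h
      rw [Finsupp.single_zero, map_zero, add_zero]
      exact ⟨h, rfl⟩
    | succ n ih =>
      intro D h
      rw [Finsupp.single_add, map_add, ← add_assoc]
      obtain ⟨h1, h2⟩ := ih D h
      have h5 : nd (Finsupp.single P 1) = Finsupp.single P 1 := by rw [nd_single]; simp
      rw [h5]
      refine ⟨?_, (NN_add_single hγ _ P h1).trans h2⟩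
      have h3 := ell_mono (sub_le_sub_left (le_add_single (D + nd (Finsupp.single P n)) P) W)
      have h4 := ell_nonneg (W - (D + nd (Finsupp.single P n) + Finsupp.single P 1))
      omega

theorem NN_eq_top (hγ : ∀ D : Place ℂ K →₀ ℤ, ell D - ell (W - D) = ddeg D - γ)
    (D : Place ℂ K →₀ ℤ) (h : ell (W - D) = 0) : NN D = ⊤ := by
  classical
  rw [eq_top_iff]
  rintro s -
  let F : Place ℂ K →₀ ℕ := Finsupp.onFinset s.support
    (fun Q => if s Q = 0 then 0 else (-Q.ord (s Q) - D Q).toNat) (by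
      intro Q hQ
      rw [Finsupp.mem_support_iff]
      intro h0
      exact hQ (if_pos h0))
  rw [← (NN_add hγ F D h).2]
  refine ⟨0, fun Q => ?_⟩
  rw [sub_zero]
  by_cases h0 : s Q = 0
  · exact Or.inl h0
  · right
    have h1 : (nd F) Q = ((-Q.ord (s Q) - D Q).toNat : ℤ) := by
      simp only [nd, Finsupp.mapRange.addMonoidHom_apply, Finsupp.mapRange_apply,
        Nat.coe_castAddMonoidHom, F, Finsupp.onFinset_apply, if_neg h0]
    rw [Finsupp.add_apply, h1]
    omega

open Classical in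
theorem Om_step (D : Place ℂ K →₀ ℤ) (P : Place ℂ K) {t : K} (ht : P.ord t = 1)
    (h : FiniteDimensional ℂ (Om (D + Finsupp.single P 1))) :
    FiniteDimensional ℂ (Om D) ∧
      finrank ℂ (Om D) ≤ finrank ℂ (Om (D + Finsupp.single P 1)) + 1 := by
  let e := Finsupp.single P (t ^ (-(D P + 1)))
  let φ : Om D →ₗ[ℂ] ℂ := (LinearMap.applyₗ e).comp (Om D).subtype
  have hφ : ∀ l : Om D, φ l = l.1 e := fun l => rfl
  have hker : LinearMap.ker φ = (Om (D + Finsupp.single P 1)).comap (Om D).subtype := by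
    ext l
    rw [LinearMap.mem_ker, hφ, Submodule.mem_comap]
    change l.1 e = 0 ↔ l.1 ∈ Om (D + Finsupp.single P 1)
    have hl := mem_Om.1 l.2
    rw [mem_Om, NN_step D P ht]
    constructor
    · intro h0 s hs
      obtain ⟨a, ha, b, hb, rfl⟩ := Submodule.mem_sup.1 hs
      obtain ⟨c, rfl⟩ := Submodule.mem_span_singleton.1 hb
      rw [map_add, hl a ha, map_smul, zero_add]
      change c • l.1 e = 0
      rw [h0, smul_zero]
    · intro h0
      exact h0 e (Submodule.mem_sup_right (Submodule.mem_span_singleton_self _))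
  have hle : Om (D + Finsupp.single P 1) ≤ Om D :=
    Submodule.dualAnnihilator_anti (NN_mono (le_add_single D P))
  let e' : LinearMap.ker φ ≃ₗ[ℂ] Om (D + Finsupp.single P 1) :=
    (LinearEquiv.ofEq _ _ hker).trans (Submodule.comapSubtypeEquivOfLe hle)
  have h1 : FiniteDimensional ℂ (LinearMap.ker φ) := e'.symm.finiteDimensional
  have h2 : FiniteDimensional ℂ (Om D ⧸ LinearMap.ker φ) :=
    φ.quotKerEquivRange.symm.finiteDimensional
  have h3 : FiniteDimensional ℂ (Om D) := Module.Finite.of_submodule_quotient (LinearMap.ker φ)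
  refine ⟨h3, ?_⟩
  have h4 := LinearMap.finrank_range_add_finrank_ker φ
  rw [e'.finrank_eq] at h4
  have h5 : finrank ℂ (LinearMap.range φ) ≤ 1 := by
    have := Submodule.finrank_le (LinearMap.range φ)
    rwa [finrank_self] at this
  omega

theorem Om_bound_step (hγ : ∀ D : Place ℂ K →₀ ℤ, ell D - ell (W - D) = ddeg D - γ)
    (D : Place ℂ K →₀ ℤ) (P : Place ℂ K)
    (h : FiniteDimensional ℂ (Om (D + Finsupp.single P 1)) ∧
      (finrank ℂ (Om (D + Finsupp.single P 1)) : ℤ) ≤ ell (W - (D + Finsupp.single P 1))) :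
    FiniteDimensional ℂ (Om D) ∧ (finrank ℂ (Om D) : ℤ) ≤ ell (W - D) := by
  obtain ⟨t, -, ht⟩ := P.surj
  obtain ⟨h1, h2⟩ := h
  obtain ⟨h3, h4⟩ := Om_step D P ht h1
  refine ⟨h3, ?_⟩
  have h5 := hγ D
  have h6 := hγ (D + Finsupp.single P 1)
  rw [ddeg_add, ddeg_single_one] at h6
  have h7 := ell_le (le_add_single D P)
  rw [ddeg_add, ddeg_single_one] at h7
  by_cases hm : ell (D + Finsupp.single P 1) = ell D + 1
  · have h8 : NN (D + Finsupp.single P 1) = NN D := by
      rw [NN_step D P ht, sup_eq_left, Submodule.span_le, Set.singleton_subset_iff]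
      exact (single_mem_NN D P ht).2 hm
    have h9 : Om D = Om (D + Finsupp.single P 1) := by unfold Om; rw [h8]
    rw [h9]
    omega
  · have h8 : (finrank ℂ (Om D) : ℤ) ≤ finrank ℂ (Om (D + Finsupp.single P 1)) + 1 := by
      exact_mod_cast h4
    omega

theorem Om_bound_add (hγ : ∀ D : Place ℂ K →₀ ℤ, ell D - ell (W - D) = ddeg D - γ)
    (F : Place ℂ K →₀ ℕ) : ∀ D : Place ℂ K →₀ ℤ,
      (FiniteDimensional ℂ (Om (D + nd F)) ∧
        (finrank ℂ (Om (D + nd F)) : ℤ) ≤ ell (W - (D + nd F))) →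
      FiniteDimensional ℂ (Om D) ∧ (finrank ℂ (Om D) : ℤ) ≤ ell (W - D) := by
  induction F using Finsupp.induction_linear with
  | zero =>
    intro D h
    rwa [map_zero, add_zero] at h
  | add F G hF hG =>
    intro D h
    rw [map_add, ← add_assoc] at h
    exact hF D (hG _ h)
  | single P n =>
    induction n with
    | zero =>
      intro D h
      rwa [Finsupp.single_zero, map_zero, add_zero] at h
    | succ n ih =>
      intro D h
      have h5 : nd (Finsupp.single P 1) = Finsupp.single P 1 := by rw [nd_single]; simp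
      rw [Finsupp.single_add, map_add, ← add_assoc, h5] at h
      exact ih D (Om_bound_step hγ _ P h)

/-- `dim Ω(D) ≤ ℓ(W - D)` -/
theorem Om_bound (hγ : ∀ D : Place ℂ K →₀ ℤ, ell D - ell (W - D) = ddeg D - γ)
    (D : Place ℂ K →₀ ℤ) :
    FiniteDimensional ℂ (Om D) ∧ (finrank ℂ (Om D) : ℤ) ≤ ell (W - D) := by
  obtain ⟨P, -⟩ := exists_place (k := ℂ) (K := K)
  let n : ℕ := (ddeg (W - D)).toNat + 1
  apply Om_bound_add hγ (Finsupp.single P n) D
  have h0 : ell (W - (D + nd (Finsupp.single P n))) = 0 := by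
    unfold ell
    rw [LL_eq_bot]
    · simp
    · rw [← sub_sub, ddeg_sub, nd_single, ddeg_single_one]
      omega
  have h1 : Om (D + nd (Finsupp.single P n)) = ⊥ := by
    unfold Om
    rw [NN_eq_top hγ _ h0, Submodule.dualAnnihilator_top]
  rw [h1, h0]
  exact ⟨inferInstance, by simp⟩

end index

section mul

variable [IsFF ℂ K]

/-- multiplication of adeles with rational functions -/
noncomputable def mu : K →ₗ[ℂ] Module.End ℂ (Place ℂ K →₀ K) :=
  (Algebra.lsmul ℂ ℂ (Place ℂ K →₀ K)).toLinearMap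

theorem mu_apply (x : K) (s : Place ℂ K →₀ K) : mu x s = x • s := rfl

theorem smul_mem_NN {D E : Place ℂ K →₀ ℤ} {x : K} (hx : x ∈ LL E) {s : Place ℂ K →₀ K}
    (hs : s ∈ NN (D - E)) : x • s ∈ NN D := by
  obtain ⟨f, hf⟩ := hs
  refine ⟨x * f, fun Q => ?_⟩
  have h1 : Ge Q (-E Q) x := hx.imp_right fun h => h Q
  have h2 := ge_mul h1 (hf Q)
  rw [mul_sub, Finsupp.sub_apply] at h2
  rw [Finsupp.smul_apply, smul_eq_mul]
  refine ge_mono ?_ h2
  omega

theorem comp_mem_Om {D E : Place ℂ K →₀ ℤ} {x : K} (hx : x ∈ LL E)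
    {l : Dual ℂ (Place ℂ K →₀ K)} (hl : l ∈ Om D) : l ∘ₗ mu x ∈ Om (D - E) := by
  rw [mem_Om] at hl ⊢
  intro s hs
  exact hl _ (smul_mem_NN hx hs)

/-- **The functionals form a space of dimension one over the function field.** -/
theorem exists_q {W : Place ℂ K →₀ ℤ} {γ : ℤ}
    (hγ : ∀ D : Place ℂ K →₀ ℤ, ell D - ell (W - D) = ddeg D - γ)
    {l0 l : Dual ℂ (Place ℂ K →₀ K)} (hl0 : l0 ∈ Om W) (h0 : l0 ≠ 0) {D : Place ℂ K →₀ ℤ}
    (hl : l ∈ Om D) : ∃ q : K, l = l0 ∘ₗ mu q := by
  by_contra hc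
  push Not at hc
  obtain ⟨P, -⟩ := exists_place (k := ℂ) (K := K)
  let n : ℕ := (γ - ddeg D).toNat + 1
  let N : Place ℂ K →₀ ℤ := Finsupp.single P (n : ℤ)
  have hN : ddeg N = n := ddeg_single_one P n
  have hinj0 : ∀ x : K, l0 ∘ₗ mu x = 0 → x = 0 := by
    intro x hx
    by_contra hx0
    apply h0
    refine LinearMap.ext fun s => ?_
    have h1 : (l0 ∘ₗ mu x) (x⁻¹ • s) = 0 := by rw [hx]; rfl
    rw [LinearMap.comp_apply, mu_apply, smul_smul, mul_inv_cancel₀ hx0, one_smul] at h1
    exact h1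
  have hinj1 : ∀ x y : K, l ∘ₗ mu x + l0 ∘ₗ mu y = 0 → x = 0 ∧ y = 0 := by
    intro x y hxy
    have hx : x = 0 := by
      by_contra hx0
      apply hc (-(y * x⁻¹))
      refine LinearMap.ext fun s => ?_
      have h1 : (l ∘ₗ mu x + l0 ∘ₗ mu y) (x⁻¹ • s) = 0 := by rw [hxy]; rfl
      rw [LinearMap.add_apply, LinearMap.comp_apply, LinearMap.comp_apply, mu_apply, mu_apply,
        smul_smul, smul_smul, mul_inv_cancel₀ hx0, one_smul] at h1
      rw [LinearMap.comp_apply, mu_apply, neg_smul, map_neg]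
      exact eq_neg_of_add_eq_zero_left h1
    refine ⟨hx, hinj0 y ?_⟩
    rw [hx, map_zero, LinearMap.comp_zero, zero_add] at hxy
    exact hxy
  have hD1 : D - (D + N) = -N := by abel
  have hD2 : W - (W + N) = -N := by abel
  let Φ : (LL (D + N) × LL (W + N)) →ₗ[ℂ] Om (-N) :=
    { toFun := fun p => ⟨l ∘ₗ mu p.1.1 + l0 ∘ₗ mu p.2.1, by
        refine Submodule.add_mem _ ?_ ?_
        · rw [← hD1]; exact comp_mem_Om p.1.2 hl
        · rw [← hD2]; exact comp_mem_Om p.2.2 hl0⟩
      map_add' := by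
        intro p p'
        apply Subtype.ext
        change l ∘ₗ mu (p.1.1 + p'.1.1) + l0 ∘ₗ mu (p.2.1 + p'.2.1) =
          (l ∘ₗ mu p.1.1 + l0 ∘ₗ mu p.2.1) + (l ∘ₗ mu p'.1.1 + l0 ∘ₗ mu p'.2.1)
        rw [map_add, map_add, LinearMap.comp_add, LinearMap.comp_add]
        abel
      map_smul' := by
        intro c p
        apply Subtype.ext
        change l ∘ₗ mu (c • p.1.1) + l0 ∘ₗ mu (c • p.2.1) =
          c • (l ∘ₗ mu p.1.1 + l0 ∘ₗ mu p.2.1)
        rw [map_smul, map_smul, LinearMap.comp_smul, LinearMap.comp_smul, smul_add] }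
  have hΦ : Function.Injective Φ := by
    rw [injective_iff_map_eq_zero]
    intro p hp
    have h1 : l ∘ₗ mu p.1.1 + l0 ∘ₗ mu p.2.1 = 0 := congrArg Subtype.val hp
    obtain ⟨h2, h3⟩ := hinj1 _ _ h1
    exact Prod.ext (Subtype.ext h2) (Subtype.ext h3)
  obtain ⟨hfin, hbd⟩ := Om_bound hγ (-N)
  have h1 := LinearMap.finrank_le_finrank_of_injective hΦ
  rw [finrank_prod] at h1
  have h2 : ell (D + N) + ell (W + N) ≤ ell (W - -N) := by
    refine le_trans ?_ hbd
    unfold ell
    exact_mod_cast h1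
  rw [sub_neg_eq_add] at h2
  have h3 := hγ (D + N)
  have h4 := ell_nonneg (W - (D + N))
  rw [ddeg_add, hN] at h3
  omega

end mul

section dual

variable [IsFF ℂ K]

theorem ell_zero_pos : 0 < ell (0 : Place ℂ K →₀ ℤ) := by
  have h1 : (1 : K) ∈ LL (0 : Place ℂ K →₀ ℤ) := by
    right
    intro Q
    rw [Q.ord_one]
    simp
  have h2 : LL (0 : Place ℂ K →₀ ℤ) ≠ ⊥ := by
    intro h
    rw [h] at h1
    exact one_ne_zero ((Submodule.mem_bot ℂ).1 h1)
  unfold ell
  have h3 : 0 < finrank ℂ (LL (0 : Place ℂ K →₀ ℤ)) := by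
    have : Nontrivial (LL (0 : Place ℂ K →₀ ℤ)) := Submodule.nontrivial_iff_ne_bot.2 h2
    exact Module.finrank_pos
  exact_mod_cast h3

theorem ell_top_step {D : Place ℂ K →₀ ℤ} (h : NN D = ⊤) (P : Place ℂ K) :
    ell (D + Finsupp.single P 1) = ell D + 1 := by
  obtain ⟨t, -, ht⟩ := P.surj
  rw [← single_mem_NN D P ht, h]
  exact Submodule.mem_top

theorem NN_W_ne_top {W : Place ℂ K →₀ ℤ} {γ : ℤ}
    (hγ : ∀ D : Place ℂ K →₀ ℤ, ell D - ell (W - D) = ddeg D - γ) : NN W ≠ ⊤ := by
  intro h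
  obtain ⟨P, -⟩ := exists_place (k := ℂ) (K := K)
  have h1 := ell_top_step h P
  have h2 := hγ W
  have h3 := hγ (W + Finsupp.single P 1)
  have h4 : ell (W - (W + Finsupp.single P 1)) = 0 := by
    unfold ell
    rw [LL_eq_bot]
    · simp
    · rw [sub_add_cancel_left, ddeg_neg, ddeg_single_one]
      omega
  have h5 := ell_zero_pos (K := K)
  rw [sub_self] at h2
  rw [ddeg_add, ddeg_single_one, h4] at h3
  omega

theorem exists_l0 {W : Place ℂ K →₀ ℤ} {γ : ℤ}
    (hγ : ∀ D : Place ℂ K →₀ ℤ, ell D - ell (W - D) = ddeg D - γ) :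
    ∃ l0 : Dual ℂ (Place ℂ K →₀ K), l0 ∈ Om W ∧ l0 ≠ 0 := by
  obtain ⟨l0, h1, h2⟩ := Submodule.exists_dual_map_eq_bot_of_lt_top
    (lt_top_iff_ne_top.2 (NN_W_ne_top hγ)) inferInstance
  refine ⟨l0, ?_, h1⟩
  rw [mem_Om]
  intro s hs
  have : l0 s ∈ (NN W).map l0 := Submodule.mem_map_of_mem hs
  rw [h2] at this
  exact (Submodule.mem_bot ℂ).1 this

theorem NN_W_add_top {W : Place ℂ K →₀ ℤ} {γ : ℤ}
    (hγ : ∀ D : Place ℂ K →₀ ℤ, ell D - ell (W - D) = ddeg D - γ) (P : Place ℂ K) :
    NN (W + Finsupp.single P 1) = ⊤ := by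
  apply NN_eq_top hγ
  unfold ell
  rw [LL_eq_bot]
  · simp
  · rw [sub_add_cancel_left, ddeg_neg, ddeg_single_one]
    omega

variable {ι : Type}

/-- The finitely supported vectors of adeles which differ from a rational vector by elements of
`Λ P`. -/
def NV (Λ : Place ℂ K → AddSubgroup (ι → K))
    (hmul : ∀ P (c : K) (x : ι → K), P.Reg c → x ∈ Λ P → c • x ∈ Λ P) :
    Submodule ℂ (Place ℂ K →₀ (ι → K)) where
  carrier := {s | ∃ f : ι → K, ∀ Q, s Q - f ∈ Λ Q}
  zero_mem' := ⟨0, fun Q => by rw [Finsupp.zero_apply, sub_zero]; exact (Λ Q).zero_mem⟩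
  add_mem' := by
    rintro s s' ⟨f, hf⟩ ⟨f', hf'⟩
    refine ⟨f + f', fun Q => ?_⟩
    have := (Λ Q).add_mem (hf Q) (hf' Q)
    rwa [sub_add_sub_comm] at this
  smul_mem' := by
    rintro c s ⟨f, hf⟩
    refine ⟨c • f, fun Q => ?_⟩
    have h1 := hmul Q (algebraMap ℂ K c) _ (Q.reg_const c) (hf Q)
    rwa [algebraMap_smul, smul_sub] at h1

theorem mem_NV {Λ : Place ℂ K → AddSubgroup (ι → K)}
    {hmul : ∀ P (c : K) (x : ι → K), P.Reg c → x ∈ Λ P → c • x ∈ Λ P}
    {s : Place ℂ K →₀ (ι → K)} : s ∈ NV Λ hmul ↔ ∃ f : ι → K, ∀ Q, s Q - f ∈ Λ Q := Iff.rfl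

/-- **Duality.**  If no rational vector approximates `x0` at `P0` modulo `Λ P0` and lies in `Λ P` for all
other points `P`, then there is a nonzero rational linear form whose values on `Λ P` have order
at least `-W P` for all `P`. -/
theorem dual [Fintype ι] {W : Place ℂ K →₀ ℤ} (hW : IsCanonical W)
    (Λ : Place ℂ K → AddSubgroup (ι → K))
    (hmul : ∀ P (c : K) (x : ι → K), P.Reg c → x ∈ Λ P → c • x ∈ Λ P)
    (m : Place ℂ K →₀ ℤ) (hm : ∀ P (x : ι → K), (∀ i, Ge P (m P) (x i)) → x ∈ Λ P)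
    (P0 : Place ℂ K) (x0 : ι → K)
    (h0 : ∀ f : ι → K, (∀ P, P ≠ P0 → f ∈ Λ P) → f - x0 ∉ Λ P0) :
    ∃ q : ι → K, q ≠ 0 ∧ ∀ P, ∀ x ∈ Λ P, Ge P (-W P) (∑ i, q i * x i) := by
  classical
  obtain ⟨γ, hγ⟩ := hW
  obtain ⟨l0, hl0, hl0n⟩ := exists_l0 hγ
  have hx0 : Finsupp.single P0 x0 ∉ NV Λ hmul := by
    rintro ⟨f, hf⟩
    apply h0 f
    · intro P hP
      have h1 := hf P
      rw [Finsupp.single_eq_of_ne hP, zero_sub] at h1
      have h2 := (Λ P).neg_mem h1
      rwa [neg_neg] at h2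
    · have h1 := hf P0
      rw [Finsupp.single_eq_same] at h1
      have h2 := (Λ P0).neg_mem h1
      rwa [neg_sub] at h2
  obtain ⟨lam, hlam1, hlam2⟩ := Submodule.exists_dual_map_eq_bot_of_notMem hx0 inferInstance
  have hlam : ∀ s ∈ NV Λ hmul, lam s = 0 := by
    intro s hs
    have : lam s ∈ (NV Λ hmul).map lam := Submodule.mem_map_of_mem hs
    rw [hlam2] at this
    exact (Submodule.mem_bot ℂ).1 this
  let inc : ι → (Place ℂ K →₀ K) →ₗ[ℂ] (Place ℂ K →₀ (ι → K)) := fun i =>
    Finsupp.mapRange.linearMap (LinearMap.single ℂ (fun _ : ι => K) i)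
  have hinc : ∀ i (s : Place ℂ K →₀ K) Q, inc i s Q = Pi.single i (s Q) := fun i s Q => rfl
  have hcomp : ∀ i, lam ∘ₗ inc i ∈ Om (-m) := by
    intro i
    rw [mem_Om]
    rintro s ⟨f, hf⟩
    apply hlam
    refine ⟨Pi.single i f, fun Q => ?_⟩
    rw [hinc, ← Pi.single_sub]
    apply hm
    intro j
    by_cases hj : j = i
    · subst hj
      rw [Pi.single_eq_same]
      have := hf Q
      rwa [Finsupp.neg_apply, neg_neg] at this
    · rw [Pi.single_eq_of_ne hj]
      exact ge_zero
  choose q hq using fun i => exists_q hγ hl0 hl0n (hcomp i)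
  have key : ∀ P (x : ι → K), lam (Finsupp.single P x) =
      l0 (Finsupp.single P (∑ i, q i * x i)) := by
    intro P x
    have h1 : Finsupp.single P x = ∑ i, inc i (Finsupp.single P (x i)) := by
      ext Q j
      rw [Finsupp.finsetSum_apply, Finset.sum_apply]
      simp only [hinc]
      by_cases hQ : Q = P
      · subst hQ
        simp only [Finsupp.single_eq_same]
        rw [← Finset.sum_apply, Finset.univ_sum_single]
      · simp [Finsupp.single_eq_of_ne hQ]
    rw [h1, map_sum]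
    have h2 : ∀ i, lam (inc i (Finsupp.single P (x i))) = l0 (Finsupp.single P (q i * x i)) := by
      intro i
      have h3 := LinearMap.congr_fun (hq i) (Finsupp.single P (x i))
      rw [LinearMap.comp_apply, LinearMap.comp_apply, mu_apply, Finsupp.smul_single,
        smul_eq_mul] at h3
      exact h3
    simp only [h2]
    rw [← map_sum, ← Finsupp.single_finsetSum]
  refine ⟨q, ?_, ?_⟩
  · rintro rfl
    apply hlam1
    rw [key]
    simp
  · intro P x hx
    by_contra hc
    unfold Ge at hc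
    push Not at hc
    obtain ⟨hy0, hy⟩ := hc
    set y := ∑ i, q i * x i with hydef
    obtain ⟨t, -, ht⟩ := P.surj
    have ht0 : t ≠ 0 := by rintro rfl; rw [P.ord_zero] at ht; omega
    have hc : P.Reg (t ^ (-(W P + 1)) * y⁻¹) := by
      right
      rw [P.ord_mul (zpow_ne_zero _ ht0) (inv_ne_zero hy0), P.ord_zpow, ht, P.ord_inv]
      omega
    have h1 := hmul P _ x hc hx
    have h2 : Finsupp.single P ((t ^ (-(W P + 1)) * y⁻¹) • x) ∈ NV Λ hmul := by
      refine ⟨0, fun Q => ?_⟩
      rw [sub_zero]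
      by_cases hQ : Q = P
      · subst hQ
        rwa [Finsupp.single_eq_same]
      · rw [Finsupp.single_eq_of_ne hQ]
        exact (Λ Q).zero_mem
    have h3 := hlam _ h2
    rw [key] at h3
    have h4 : ∑ i, q i * ((t ^ (-(W P + 1)) * y⁻¹) • x) i = t ^ (-(W P + 1)) := by
      have : ∀ i, q i * ((t ^ (-(W P + 1)) * y⁻¹) • x) i =
          (t ^ (-(W P + 1)) * y⁻¹) * (q i * x i) := by
        intro i
        rw [Pi.smul_apply, smul_eq_mul]
        ring
      simp only [this]
      rw [← Finset.mul_sum, ← hydef, mul_assoc, inv_mul_cancel₀ hy0, mul_one]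
    rw [h4] at h3
    apply hl0n
    refine LinearMap.ext fun s => ?_
    have h5 : s ∈ NN (W + Finsupp.single P 1) := by
      rw [NN_W_add_top hγ]
      exact Submodule.mem_top
    rw [NN_step W P ht] at h5
    obtain ⟨a, ha, b, hb, rfl⟩ := Submodule.mem_sup.1 h5
    obtain ⟨c, rfl⟩ := Submodule.mem_span_singleton.1 hb
    rw [map_add, mem_Om.1 hl0 a ha, map_smul, h3, smul_zero, zero_add]
    rfl

end dual

end Pool.Agent.Helper90.FJ
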