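import Mathlib

/-!
The determinant of the symmetric power of a matrix (package for helper9, MP_e09b14_ag).
-/

set_option autoImplicit false
set_option linter.unusedSectionVars false

namespace Pool.Agent.Helper90.FJ

open MvPolynomial Matrix

section ps

variable {I J L : Type} [Fintype I] [Fintype J] [Fintype L] {R : Type} [CommRing R]

/-- The linear substitution `X_j ↦ ∑ h_jl X_l`. -/
noncomputable def ps (h : Matrix J I R) : MvPolynomial J R →ₐ[R] MvPolynomial I R :=
  aeval (fun j => ∑ l, C (h j l) * X l)

theorem ps_X (h : Matrix J I R) (j : J) : ps h (X j) = ∑ l, C (h j l) * X l := aeval_X _ _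

theorem ps_C (h : Matrix J I R) (c : R) : ps h (C c) = C c := by
  unfold ps
  rw [aeval_C]
  rfl

theorem ps_ps (h : Matrix J I R) (h' : Matrix I L R) (f : MvPolynomial J R) :
    ps h' (ps h f) = ps (h * h') f := by
  have : (ps h').comp (ps h) = ps (h * h') := by
    apply MvPolynomial.algHom_ext
    intro j
    rw [AlgHom.comp_apply, ps_X, ps_X, map_sum]
    simp only [map_mul, ps_C, ps_X, Matrix.mul_apply, map_sum, Finset.sum_mul, Finset.mul_sum]
    rw [Finset.sum_comm]
    refine Finset.sum_congr rfl fun l _ => Finset.sum_congr rfl fun i _ => ?_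
    ring
  exact AlgHom.congr_fun this f

theorem ps_one [DecidableEq I] (f : MvPolynomial I R) : ps (1 : Matrix I I R) f = f := by
  have : ps (1 : Matrix I I R) = AlgHom.id R _ := by
    apply MvPolynomial.algHom_ext
    intro j
    rw [ps_X, AlgHom.id_apply]
    simp [Matrix.one_apply]
  rw [this]; rfl

theorem ps_hom (h : Matrix J I R) {f : MvPolynomial J R} {m : ℕ} (hf : f.IsHomogeneous m) :
    (ps h f).IsHomogeneous m := by
  have := hf.aeval (g := fun j => ∑ l, C (h j l) * X l) (n := 1) (by
    intro j
    apply IsHomogeneous.sum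
    intro l _
    exact isHomogeneous_C_mul_X _ _)
  rwa [one_mul] at this

theorem eval_ps (h : Matrix J I R) (f : MvPolynomial J R) (x : I → R) :
    eval x (ps h f) = eval (h.mulVec x) f := by
  have : (eval x).comp (ps h).toRingHom = eval (h.mulVec x) := by
    apply MvPolynomial.ringHom_ext
    · intro r
      change eval x (ps h (C r)) = _
      rw [ps_C, eval_C, eval_C]
    · intro j
      change eval x (ps h (X j)) = _
      rw [ps_X, eval_X]
      simp [Matrix.mulVec, dotProduct]
  exact RingHom.congr_fun this f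

theorem map_ps {S : Type} [CommRing S] (θ : R →+* S) (h : Matrix J I R) (f : MvPolynomial J R) :
    MvPolynomial.map θ (ps h f) = ps (h.map θ) (MvPolynomial.map θ f) := by
  have : (MvPolynomial.map θ).comp (ps h).toRingHom =
      (ps (h.map θ)).toRingHom.comp (MvPolynomial.map θ) := by
    apply MvPolynomial.ringHom_ext
    · intro r
      change MvPolynomial.map θ (ps h (C r)) = ps (h.map θ) (MvPolynomial.map θ (C r))
      rw [ps_C, map_C, map_C, ps_C]
    · intro j
      change MvPolynomial.map θ (ps h (X j)) = ps (h.map θ) (MvPolynomial.map θ (X j))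
      rw [ps_X, map_X, ps_X, map_sum]
      simp
  exact RingHom.congr_fun this f

end ps

section A

variable {I : Type} [Fintype I] [DecidableEq I]

/-- the exponents of degree `m` -/
def A (I : Type) [Fintype I] [DecidableEq I] (m : ℕ) : Finset (I →₀ ℕ) :=
  Finset.univ.finsuppAntidiag m

theorem mem_A {m : ℕ} {α : I →₀ ℕ} : α ∈ A I m ↔ ∑ i, α i = m := by
  unfold A
  rw [Finset.mem_finsuppAntidiag]
  simp

theorem mem_A' {m : ℕ} {α : I →₀ ℕ} : α ∈ A I m ↔ α.degree = m := by
  rw [mem_A, Finsupp.degree_eq_sum]

variable {R : Type} [CommRing R]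

theorem hom_eq_sum {m : ℕ} {f : MvPolynomial I R} (hf : f.IsHomogeneous m) :
    f = ∑ γ : A I m, monomial γ.1 (coeff γ.1 f) := by
  ext α
  rw [coeff_sum]
  simp only [coeff_monomial]
  by_cases hα : α ∈ A I m
  · rw [Finset.sum_eq_single ⟨α, hα⟩]
    · simp
    · intro b _ hb
      rw [if_neg]
      intro h
      exact hb (Subtype.ext h)
    · intro h
      exact absurd (Finset.mem_univ _) h
  · rw [hf.coeff_eq_zero (fun h => hα (mem_A'.2 h))]
    symm
    apply Finset.sum_eq_zero
    intro b _
    rw [if_neg]
    rintro rfl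
    exact hα b.2

/-- coefficient matrix -/
noncomputable def cm (m : ℕ) {B : Type} (f : B → MvPolynomial I R) : Matrix (A I m) B R :=
  Matrix.of fun α b => coeff α.1 (f b)

/-- the matrix of the substitution on the forms of degree `m` -/
noncomputable def TT (m : ℕ) (h : Matrix I I R) : Matrix (A I m) (A I m) R :=
  cm m fun γ => ps h (monomial γ.1 1)

theorem TT_mul_cm (m : ℕ) (h : Matrix I I R) {B : Type} [Fintype B] (f : B → MvPolynomial I R)
    (hf : ∀ b, (f b).IsHomogeneous m) : TT m h * cm m f = cm m (fun b => ps h (f b)) := by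
  ext α b
  rw [Matrix.mul_apply]
  change ∑ γ : A I m, coeff α.1 (ps h (monomial γ.1 1)) * coeff γ.1 (f b) =
    coeff α.1 (ps h (f b))
  conv_rhs => rw [hom_eq_sum (hf b), map_sum, coeff_sum]
  refine Finset.sum_congr rfl fun γ _ => ?_
  have : (monomial γ.1 (coeff γ.1 (f b)) : MvPolynomial I R) =
      C (coeff γ.1 (f b)) * monomial γ.1 1 := by
    rw [C_mul_monomial, mul_one]
  rw [this, map_mul, ps_C, coeff_C_mul, mul_comm]

theorem mono_hom {m : ℕ} (γ : A I m) : (monomial γ.1 (1 : R)).IsHomogeneous m :=
  isHomogeneous_monomial _ (mem_A'.1 γ.2)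

theorem TT_mul (m : ℕ) (h h' : Matrix I I R) : TT m h' * TT m h = TT m (h * h') := by
  unfold TT
  have := TT_mul_cm m h' (fun γ : A I m => ps h (monomial γ.1 1))
    (fun γ => ps_hom h (mono_hom γ))
  unfold TT at this
  rw [this]
  simp only [ps_ps]

theorem TT_one (m : ℕ) : TT m (1 : Matrix I I R) = 1 := by
  ext α β
  change coeff α.1 (ps 1 (monomial β.1 1)) = _
  rw [ps_one, coeff_monomial, Matrix.one_apply]
  by_cases h : α = β
  · rw [h]; simp
  · rw [if_neg, if_neg h]
    intro h'
    exact h (Subtype.ext h'.symm)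

theorem ps_diagonal (u : I → R) (γ : I →₀ ℕ) :
    ps (Matrix.diagonal u) (monomial γ 1) = monomial γ (∏ i, u i ^ γ i) := by
  rw [MvPolynomial.monomial_eq, MvPolynomial.monomial_eq, C_1, one_mul, Finsupp.prod_fintype,
    map_prod]
  · simp only [map_pow, ps_X]
    have : ∀ i, ∑ l, C (Matrix.diagonal u i l) * X l = (C (u i) * X i : MvPolynomial I R) := by
      intro i
      rw [Finset.sum_eq_single i]
      · simp
      · intro b _ hb
        rw [Matrix.diagonal_apply_ne' _ hb]
        simp
      · intro h; exact absurd (Finset.mem_univ _) h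
    simp only [this, mul_pow]
    rw [Finset.prod_mul_distrib, map_prod]
    simp only [map_pow]
  · intro i; simp

theorem TT_diagonal (m : ℕ) (u : I → R) :
    TT m (Matrix.diagonal u) = Matrix.diagonal (fun γ : A I m => ∏ i, u i ^ γ.1 i) := by
  ext α β
  change coeff α.1 (ps (Matrix.diagonal u) (monomial β.1 1)) = _
  rw [ps_diagonal, coeff_monomial]
  by_cases h : β = α
  · rw [h]; simp
  · rw [if_neg (fun h' => h (Subtype.ext h')), Matrix.diagonal_apply_ne' _ h]

/-- the sum of the `i`-th exponents does not depend on `i` -/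
theorem sum_exp_eq (m : ℕ) (i j : I) : ∑ γ : A I m, γ.1 i = ∑ γ : A I m, γ.1 j := by
  classical
  rw [Finset.sum_coe_sort (A I m) (fun γ => γ i), Finset.sum_coe_sort (A I m) (fun γ => γ j)]
  refine Finset.sum_nbij' (fun γ => γ.equivMapDomain (Equiv.swap i j))
    (fun γ => γ.equivMapDomain (Equiv.swap i j)) ?_ ?_ ?_ ?_ ?_
  · intro γ hγ
    rw [mem_A] at hγ ⊢
    rw [← hγ]
    exact Equiv.sum_comp (Equiv.swap i j).symm (fun x => γ x)
  · intro γ hγ
    rw [mem_A] at hγ ⊢
    rw [← hγ]
    exact Equiv.sum_comp (Equiv.swap i j).symm (fun x => γ x)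
  · intro γ _
    ext x
    simp [Finsupp.equivMapDomain_apply]
  · intro γ _
    ext x
    simp [Finsupp.equivMapDomain_apply]
  · intro γ _
    simp [Finsupp.equivMapDomain_apply]

theorem card_mul_sum_exp (m : ℕ) (i : I) :
    Fintype.card I * ∑ γ : A I m, γ.1 i = m * (A I m).card := by
  have h1 : ∑ j : I, ∑ γ : A I m, γ.1 j = m * (A I m).card := by
    rw [Finset.sum_comm]
    have : ∀ γ : A I m, ∑ j, γ.1 j = m := fun γ => mem_A.1 γ.2
    simp only [this]
    rw [Finset.sum_const, Finset.card_univ, Fintype.card_coe, smul_eq_mul, mul_comm]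
  rw [← h1]
  simp only [sum_exp_eq m _ i]
  rw [Finset.sum_const, Finset.card_univ, smul_eq_mul]

end A

section det

variable {I : Type} [Fintype I] [DecidableEq I] {F : Type} [Field F] [CharZero F]

theorem det_TT_diagonal (m : ℕ) (u : I → F) :
    (TT m (Matrix.diagonal u)).det ^ Fintype.card I =
      (Matrix.diagonal u).det ^ (m * (A I m).card) := by
  rw [TT_diagonal, Matrix.det_diagonal, Matrix.det_diagonal, Finset.prod_comm, ← Finset.prod_pow,
    ← Finset.prod_pow]
  refine Finset.prod_congr rfl fun i _ => ?_
  rw [Finset.prod_pow_eq_pow_sum, ← pow_mul, mul_comm, card_mul_sum_exp]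

theorem det_TT_mul (m : ℕ) (h h' : Matrix I I F) :
    (TT m (h * h')).det = (TT m h).det * (TT m h').det := by
  rw [← TT_mul, Matrix.det_mul, mul_comm]

theorem det_TT_transvection (m : ℕ) {i j : I} (hij : i ≠ j) (c : F) :
    (TT m (Matrix.transvection i j c)).det = 1 := by
  have h0 : (TT m (Matrix.transvection i j c)).det * (TT m (Matrix.transvection i j (-c))).det
      = 1 := by
    rw [← det_TT_mul, Matrix.transvection_mul_transvection_same i j hij, add_neg_cancel,
      Matrix.transvection_zero, TT_one, Matrix.det_one]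
  have h1 : (TT m (Matrix.transvection i j c)).det ≠ 0 := left_ne_zero_of_mul_eq_one h0
  have h2 : (TT m (Matrix.transvection i j (c + c))).det =
      (TT m (Matrix.transvection i j c)).det * (TT m (Matrix.transvection i j c)).det := by
    rw [← det_TT_mul, Matrix.transvection_mul_transvection_same i j hij]
  let u : I → F := Function.update 1 i 2
  let v : I → F := Function.update 1 i 2⁻¹
  have huv : Matrix.diagonal u * Matrix.diagonal v = 1 := by
    rw [Matrix.diagonal_mul_diagonal]
    have : (fun l => u l * v l) = fun _ => (1 : F) := by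
      ext l
      by_cases hl : l = i
      · subst hl; simp [u, v]
      · simp [u, v, hl]
    rw [this, Matrix.diagonal_one]
  have h3 : Matrix.transvection i j (c + c) =
      Matrix.diagonal u * Matrix.transvection i j c * Matrix.diagonal v := by
    ext a b
    rw [Matrix.mul_diagonal, Matrix.diagonal_mul]
    unfold Matrix.transvection
    rw [Matrix.add_apply, Matrix.add_apply, Matrix.one_apply, Matrix.single_apply,
      Matrix.single_apply]
    by_cases hab : a = b
    · subst hab
      have : ¬ (i = a ∧ j = a) := fun h => hij (h.1.trans h.2.symm)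
      rw [if_neg this, if_neg this, if_pos rfl, add_zero, mul_one]
      by_cases hl : a = i
      · subst hl; simp [u, v]
      · simp [u, v, hl]
    · rw [if_neg hab, zero_add, zero_add]
      by_cases h : i = a ∧ j = b
      · rw [if_pos h, if_pos h]
        obtain ⟨rfl, rfl⟩ := h
        have hji : ¬ j = i := fun h => hij h.symm
        simp only [u, v, Function.update_self, Function.update_of_ne hji, Pi.one_apply, mul_one]
        ring
      · rw [if_neg h, if_neg h, mul_zero, zero_mul]
  have h4 : (TT m (Matrix.transvection i j (c + c))).det =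
      (TT m (Matrix.transvection i j c)).det := by
    rw [h3, det_TT_mul, det_TT_mul, mul_right_comm, ← det_TT_mul, huv, TT_one, Matrix.det_one,
      one_mul]
  rw [h4] at h2
  exact (mul_eq_left₀ h1).1 h2.symm

/-- **The determinant of the symmetric power.** -/
theorem det_TT (m : ℕ) (h : Matrix I I F) (hh : h.det ≠ 0) :
    (TT m h).det ^ Fintype.card I = h.det ^ (m * (A I m).card) := by
  refine Matrix.diagonal_transvection_induction_of_det_ne_zero
    (fun h => (TT m h).det ^ Fintype.card I = h.det ^ (m * (A I m).card)) h hh ?_ ?_ ?_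
  · intro D _
    exact det_TT_diagonal m D
  · intro t
    change (TT m (Matrix.transvection t.i t.j t.c)).det ^ _ = t.toMatrix.det ^ _
    rw [det_TT_transvection m t.hij, t.det, one_pow, one_pow]
  · intro a b _ _ h1 h2
    rw [det_TT_mul, mul_pow, h1, h2, Matrix.det_mul, mul_pow]

end det

end Pool.Agent.Helper90.FJ
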