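import Pool.Agent.Helper90.FJ.Dual
import Pool.Agent.Helper90.FJ.Sym

/-!
Generation of the forms of large degree (package for helper9, MP_e09b14_ag).
-/

set_option autoImplicit false
set_option linter.unusedSectionVars false

namespace Pool.Agent.Helper90.FJ

open FF Module MvPolynomial Pool.Agent.Helper9.FJ

variable {K : Type} [Field K] [Algebra ℂ K] [IsFF ℂ K]

/-- reduction to the residue field `ℂ` -/
noncomputable def theta (P : Place ℂ K) : P.O →+* ℂ :=
  (RingEquiv.ofBijective (algebraMap ℂ P.RF) (algebraMap_RF_bijective P)).symm.toRingHom.comp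
    P.resHom

/-- the inclusion of the valuation ring -/
noncomputable def io (P : Place ℂ K) : P.O →+* K := P.O.subtype

theorem io_apply (P : Place ℂ K) (x : P.O) : io P x = x.1 := rfl

theorem io_injective (P : Place ℂ K) : Function.Injective (io P) := Subtype.val_injective

/-- constants -/
noncomputable def cst (P : Place ℂ K) : ℂ →+* P.O where
  toFun c := ⟨algebraMap ℂ K c, P.reg_const c⟩
  map_one' := Subtype.ext (map_one _)
  map_mul' a b := Subtype.ext (map_mul _ a b)
  map_zero' := Subtype.ext (map_zero _)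
  map_add' a b := Subtype.ext (map_add _ a b)

theorem io_cst (P : Place ℂ K) (c : ℂ) : io P (cst P c) = algebraMap ℂ K c := rfl

theorem theta_cst (P : Place ℂ K) (c : ℂ) : theta P (cst P c) = c := by
  unfold theta
  rw [RingHom.comp_apply]
  have h1 : P.resHom (cst P c) = algebraMap ℂ P.RF c := by
    rw [P.algebraMap_RF, P.red_of_reg (P.reg_const c)]
    rfl
  rw [h1]
  exact (RingEquiv.ofBijective (algebraMap ℂ P.RF) (algebraMap_RF_bijective P)).symm_apply_apply c

theorem theta_surjective (P : Place ℂ K) : Function.Surjective (theta P) :=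
  fun c => ⟨cst P c, theta_cst P c⟩

theorem theta_eq_zero (P : Place ℂ K) (x : P.O) : theta P x = 0 ↔ Ge P 1 (io P x) := by
  unfold theta
  rw [RingHom.comp_apply]
  have h1 : (RingEquiv.ofBijective (algebraMap ℂ P.RF)
      (algebraMap_RF_bijective P)).symm.toRingHom (P.resHom x) = 0 ↔ P.resHom x = 0 :=
    map_eq_zero_iff _ (RingEquiv.injective _)
  have hx : P.Reg x.1 := x.2
  rw [h1, ← P.red_of_reg hx, P.red_eq_zero_iff hx]
  exact Iff.rfl

variable {I : Type} [Fintype I] [DecidableEq I]

theorem exists_lift (P : Place ℂ K) {f : MvPolynomial I K} (hf : ∀ α, Ge P 0 (coeff α f)) :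
    ∃ F : MvPolynomial I P.O, MvPolynomial.map (io P) F = f := by
  have : f ∈ Set.range (MvPolynomial.map (σ := I) (io P)) := by
    rw [mem_range_map_iff_coeffs_subset]
    intro x hx
    rw [Finset.mem_coe, MvPolynomial.mem_coeffs_iff] at hx
    obtain ⟨α, -, rfl⟩ := hx
    exact ⟨⟨coeff α f, hf α⟩, rfl⟩
  exact this

theorem theta_eval (P : Place ℂ K) (F : MvPolynomial I P.O) (x : I → P.O) :
    theta P (eval x F) = eval (fun i => theta P (x i)) (MvPolynomial.map (theta P) F) := by
  rw [MvPolynomial.eval_map]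
  exact MvPolynomial.hom_eval₂ F (RingHom.id _) (theta P) x |>.trans rfl

theorem io_eval (P : Place ℂ K) (F : MvPolynomial I P.O) (x : I → P.O) :
    io P (eval x F) = eval (fun i => io P (x i)) (MvPolynomial.map (io P) F) := by
  rw [MvPolynomial.eval_map]
  exact MvPolynomial.hom_eval₂ F (RingHom.id _) (io P) x |>.trans rfl

/-- large powers of the variables -/
theorem exists_pow_mem (J : Ideal (MvPolynomial I ℂ))
    (hJ : ∀ ζ : I → ℂ, ζ ≠ 0 → ∃ p ∈ J, eval ζ p ≠ 0) :
    ∃ e : ℕ, ∀ i, (X i : MvPolynomial I ℂ) ^ e ∈ J := by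
  have h1 : ∀ i, (X i : MvPolynomial I ℂ) ∈ J.radical := by
    intro i
    rw [← MvPolynomial.vanishingIdeal_zeroLocus_eq_radical (K := ℂ) J, mem_vanishingIdeal_iff]
    intro x hx
    rw [mem_zeroLocus_iff] at hx
    by_cases h0 : x = 0
    · rw [h0, aeval_X]; rfl
    · obtain ⟨p, hp, hpx⟩ := hJ x h0
      exact absurd (hx p hp) hpx
  choose e he using h1
  refine ⟨∑ i, e i, fun i => ?_⟩
  obtain ⟨d, hd⟩ := Nat.exists_eq_add_of_le (Finset.single_le_sum
    (f := e) (fun _ _ => Nat.zero_le _) (Finset.mem_univ i))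
  rw [hd, pow_add]
  exact J.mul_mem_right _ (he i)

theorem monomial_mem (J : Ideal (MvPolynomial I ℂ)) {e : ℕ}
    (he : ∀ i, (X i : MvPolynomial I ℂ) ^ e ∈ J) {m : ℕ} (hm : Fintype.card I * e < m)
    (α : I →₀ ℕ) (hα : ∑ i, α i = m) : monomial α (1 : ℂ) ∈ J := by
  obtain ⟨i, hi⟩ : ∃ i, e ≤ α i := by
    by_contra hc
    push Not at hc
    have : ∑ i, α i ≤ ∑ _i : I, e := Finset.sum_le_sum fun i _ => (hc i).le
    rw [Finset.sum_const, Finset.card_univ, smul_eq_mul] at this
    omega
  have h1 : α = Finsupp.single i e + (α - Finsupp.single i e) := by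
    rw [add_tsub_cancel_of_le]
    intro j
    by_cases hj : j = i
    · subst hj; simpa using hi
    · rw [Finsupp.single_eq_of_ne hj]; exact Nat.zero_le _
  rw [h1, ← one_mul (1 : ℂ), ← monomial_mul, ← X_pow_eq_monomial]
  exact J.mul_mem_right _ (he i)

/-- The forms of degree `m + k` in the ideal which is generated by the forms `V` of degree `k`. -/
theorem component_mem {V : Set (MvPolynomial I K)} {k : ℕ} (hV : ∀ v ∈ V, v.IsHomogeneous k)
    (m : ℕ) {f : MvPolynomial I K} (hf : f ∈ Ideal.span V) :
    homogeneousComponent (m + k) f ∈ Submodule.span K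
      {g | ∃ v ∈ V, ∃ h : MvPolynomial I K, h.IsHomogeneous m ∧ g = v * h} := by
  have key : ∀ a : MvPolynomial I K, homogeneousComponent (m + k) (a * f) ∈ Submodule.span K
      {g | ∃ v ∈ V, ∃ h : MvPolynomial I K, h.IsHomogeneous m ∧ g = v * h} := by
    refine Submodule.span_induction (p := fun f _ => ∀ a : MvPolynomial I K,
      homogeneousComponent (m + k) (a * f) ∈
      Submodule.span K {g | ∃ v ∈ V, ∃ h : MvPolynomial I K, h.IsHomogeneous m ∧ g = v * h})
      ?_ ?_ ?_ ?_ hf
    · intro v hv a
      induction a using MvPolynomial.induction_on' with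
      | monomial β c =>
        have h1 : (monomial β c * v).IsHomogeneous (β.degree + k) :=
          (isHomogeneous_monomial c rfl).mul (hV v hv)
        rw [homogeneousComponent_of_mem h1]
        split_ifs with h
        · apply Submodule.subset_span
          refine ⟨v, hv, monomial β c, isHomogeneous_monomial c (by omega), mul_comm _ _⟩
        · exact Submodule.zero_mem _
      | add a b ha hb =>
        rw [add_mul, _root_.map_add]
        exact Submodule.add_mem _ ha hb
    · intro a
      rw [mul_zero, _root_.map_zero]; exact Submodule.zero_mem _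
    · intro x y _ _ hx hy a
      rw [mul_add, _root_.map_add]; exact Submodule.add_mem _ (hx a) (hy a)
    · intro b x _ hx a
      rw [smul_eq_mul, ← mul_assoc]
      exact hx _
  have := key 1
  rwa [one_mul] at this

theorem map_component {R S : Type} [CommRing R] [CommRing S] (φ : R →+* S) (m : ℕ)
    (F : MvPolynomial I R) :
    MvPolynomial.map φ (homogeneousComponent m F) =
      homogeneousComponent m (MvPolynomial.map φ F) := by
  ext α
  rw [coeff_map, coeff_homogeneousComponent, coeff_homogeneousComponent, coeff_map]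
  split_ifs
  · rfl
  · exact map_zero φ

/-- forms whose coefficient vectors span -/
theorem mem_span_of_det {m : ℕ} (f : A I m → MvPolynomial I K) (hf : ∀ γ, (f γ).IsHomogeneous m)
    (hdet : (cm m f).det ≠ 0) {g : MvPolynomial I K} (hg : g.IsHomogeneous m) :
    g ∈ Submodule.span K (Set.range f) := by
  let c : A I m → K := ((cm m f)⁻¹).mulVec (fun α => coeff α.1 g)
  have h1 : (cm m f).mulVec c = fun α => coeff α.1 g := by
    change (cm m f).mulVec (((cm m f)⁻¹).mulVec _) = _
    rw [Matrix.mulVec_mulVec, Matrix.mul_nonsing_inv _ (isUnit_iff_ne_zero.2 hdet),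
      Matrix.one_mulVec]
  have h2 : g = ∑ γ, c γ • f γ := by
    ext α
    rw [coeff_sum]
    by_cases hα : α ∈ A I m
    · have := congrFun h1 ⟨α, hα⟩
      rw [← this]
      refine Finset.sum_congr rfl fun γ _ => ?_
      rw [coeff_smul, smul_eq_mul, mul_comm]
      rfl
    · have hα' : α.degree ≠ m := fun h => hα (mem_A'.2 h)
      rw [hg.coeff_eq_zero hα']
      symm
      apply Finset.sum_eq_zero
      intro γ _
      rw [coeff_smul, (hf γ).coeff_eq_zero hα', smul_zero]
  rw [h2]
  exact Submodule.sum_mem _ fun γ _ =>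
    Submodule.smul_mem _ _ (Submodule.subset_span (Set.mem_range_self γ))

/-- **Generation**: forms which have no common zero on one fibre generate all forms of large
degree over the function field. -/
theorem gen (P : Place ℂ K) (n : ℤ) (k : ℕ) (V : Set (MvPolynomial I K))
    (hV : ∀ v ∈ V, v.IsHomogeneous k) (hc : ∀ v ∈ V, ∀ α, Ge P (-n) (coeff α v))
    (hz : ∀ ζ : I → ℂ, ζ ≠ 0 →
      ∃ v ∈ V, ¬ Ge P (1 - n) (eval (fun i => algebraMap ℂ K (ζ i)) v)) :
    ∃ m0 : ℕ, ∀ m, m0 ≤ m → ∀ f : MvPolynomial I K, f.IsHomogeneous (m + k) →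
      f ∈ Submodule.span K
        {g | ∃ v ∈ V, ∃ h : MvPolynomial I K, h.IsHomogeneous m ∧ g = v * h} := by
  obtain ⟨t, -, ht⟩ := P.surj
  have ht0 : t ≠ 0 := by rintro rfl; rw [P.ord_zero] at ht; omega
  have hsurj : Function.Surjective (MvPolynomial.map (σ := I) (theta P)) :=
    MvPolynomial.map_surjective _ (theta_surjective P)
  let J : Ideal (MvPolynomial I ℂ) := Ideal.map (MvPolynomial.map (theta P))
    (Ideal.comap (MvPolynomial.map (io P)) (Ideal.span V))
  have hJ1 : ∀ ζ : I → ℂ, ζ ≠ 0 → ∃ p ∈ J, eval ζ p ≠ 0 := by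
    intro ζ hζ
    obtain ⟨v, hv, hv1⟩ := hz ζ hζ
    have h1 : ∀ α, Ge P 0 (coeff α (C (t ^ n) * v)) := by
      intro α
      rw [coeff_C_mul]
      have h2 : Ge P n (t ^ n) := Or.inr (by rw [P.ord_zpow, ht]; simp)
      have := ge_mul h2 (hc v hv α)
      rwa [add_neg_cancel] at this
    obtain ⟨F, hF⟩ := exists_lift P h1
    refine ⟨MvPolynomial.map (theta P) F, Ideal.mem_map_of_mem _ ?_, ?_⟩
    · rw [Ideal.mem_comap, hF]
      exact Ideal.mul_mem_left _ _ (Ideal.subset_span hv)
    · intro h0
      apply hv1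
      have h3 := theta_eval P F (fun i => cst P (ζ i))
      simp only [theta_cst] at h3
      rw [h0, theta_eq_zero, io_eval, hF, _root_.map_mul, eval_C] at h3
      simp only [io_cst] at h3
      have h4 : Ge P (-n) (t ^ (-n)) := Or.inr (by rw [P.ord_zpow, ht]; simp)
      have h5 := ge_mul h4 h3
      rw [← mul_assoc, ← zpow_add₀ ht0, neg_add_cancel, zpow_zero, one_mul] at h5
      refine ge_mono ?_ h5
      omega
  obtain ⟨e, he⟩ := exists_pow_mem J hJ1
  refine ⟨Fintype.card I * e + 1, fun m hm f hf => ?_⟩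
  have hmono : ∀ γ : A I (m + k), ∃ F : MvPolynomial I P.O,
      MvPolynomial.map (io P) F ∈ Ideal.span V ∧
      MvPolynomial.map (theta P) F = monomial γ.1 1 := by
    intro γ
    have h1 : monomial γ.1 (1 : ℂ) ∈ J :=
      monomial_mem J he (m := m + k) (by omega) γ.1 (mem_A.1 γ.2)
    obtain ⟨F, hF1, hF2⟩ := (Ideal.mem_map_iff_of_surjective _ hsurj).1 h1
    exact ⟨F, Ideal.mem_comap.1 hF1, hF2⟩
  choose F hF1 hF2 using hmono
  let G : A I (m + k) → MvPolynomial I K := fun γ =>
    homogeneousComponent (m + k) (MvPolynomial.map (io P) (F γ))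
  have hG1 : ∀ γ, (G γ).IsHomogeneous (m + k) := fun γ =>
    homogeneousComponent_isHomogeneous _ _
  have hG2 : ∀ γ, G γ ∈ Submodule.span K
        {g | ∃ v ∈ V, ∃ h : MvPolynomial I K, h.IsHomogeneous m ∧ g = v * h} := fun γ =>
    component_mem hV m (hF1 γ)
  have hdet : (cm (m + k) G).det ≠ 0 := by
    have h1 : cm (m + k) G = (cm (m + k) F).map (io P) := by
      ext α γ
      change coeff α.1 (homogeneousComponent (m + k) (MvPolynomial.map (io P) (F γ))) =
        io P (coeff α.1 (F γ))
      rw [coeff_homogeneousComponent, if_pos (mem_A'.1 α.2), coeff_map]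
    have h2 : (cm (m + k) F).map (theta P) = 1 := by
      ext α γ
      change theta P (coeff α.1 (F γ)) = _
      rw [← coeff_map, hF2, coeff_monomial, Matrix.one_apply]
      by_cases h : α = γ
      · rw [h]; simp
      · rw [if_neg h, if_neg]
        intro h'
        exact h (Subtype.ext h'.symm)
    rw [h1]
    intro h0
    have h3 : io P (cm (m + k) F).det = 0 := by
      rw [RingHom.map_det]
      exact h0
    have h4 : (cm (m + k) F).det = 0 := io_injective P (by rw [h3, _root_.map_zero])
    have h5 : theta P (cm (m + k) F).det = 1 := by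
      rw [RingHom.map_det]
      change ((cm (m + k) F).map (theta P)).det = 1
      rw [h2, Matrix.det_one]
    rw [h4, _root_.map_zero] at h5
    exact zero_ne_one h5
  have h6 := mem_span_of_det G hG1 hdet hf
  refine Submodule.span_le.2 ?_ h6
  rintro _ ⟨γ, rfl⟩
  exact hG2 γ

end Pool.Agent.Helper90.FJ
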