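import Pool.Agent.Helper90.FJ.Bound

/-!
Counting, and positivity (package for helper9, MP_e09b14_ag).
-/

set_option autoImplicit false
set_option linter.unusedSectionVars false

namespace Pool.Agent.Helper90.FJ

open FF Module MvPolynomial Pool.Agent.Helper9.FJ

section count

variable {I : Type} [Fintype I] [DecidableEq I] (i0 : I)

/-- rounding -/
noncomputable def rd (m b : ℕ) (γ : I →₀ ℕ) : I →₀ ℕ :=
  Finsupp.equivFunOnFinite.symm fun i =>
    if i = i0 then m - ∑ x ∈ Finset.univ.erase i0, γ x / b else γ i / b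

theorem sum_div_le {m b T : ℕ} (hb : 0 < b) (hm : m ≤ b * T) {γ : I →₀ ℕ} (hγ : γ ∈ A I m) :
    ∑ x ∈ Finset.univ.erase i0, γ x / b ≤ m ∧ ∑ x ∈ Finset.univ.erase i0, γ x / b ≤ T := by
  have h1 : b * ∑ x ∈ Finset.univ.erase i0, γ x / b ≤ m := by
    rw [Finset.mul_sum]
    calc ∑ x ∈ Finset.univ.erase i0, b * (γ x / b) ≤ ∑ x ∈ Finset.univ.erase i0, γ x :=
          Finset.sum_le_sum fun x _ => Nat.mul_div_le _ _
      _ ≤ ∑ x, γ x := Finset.sum_le_sum_of_subset (Finset.erase_subset _ _)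
      _ = m := mem_A.1 hγ
  constructor
  · calc _ ≤ b * ∑ x ∈ Finset.univ.erase i0, γ x / b := Nat.le_mul_of_pos_left _ hb
      _ ≤ m := h1
  · exact Nat.le_of_mul_le_mul_left (h1.trans hm) hb

theorem card_A_le {m b T : ℕ} (hb : 0 < b) (hm : m ≤ b * T) :
    (A I m).card ≤ ((A I m).filter fun γ => m ≤ γ i0 + T).card * b ^ Fintype.card I := by
  classical
  let Φ : (I →₀ ℕ) → (I →₀ ℕ) × (I → Fin b) := fun γ =>
    (rd i0 m b γ, fun i => ⟨γ i % b, Nat.mod_lt _ hb⟩)
  have h1 : (((A I m).filter fun γ => m ≤ γ i0 + T) ×ˢ (Finset.univ : Finset (I → Fin b))).card =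
      ((A I m).filter fun γ => m ≤ γ i0 + T).card * b ^ Fintype.card I := by
    rw [Finset.card_product, Finset.card_univ, Fintype.card_fun, Fintype.card_fin]
  rw [← h1]
  apply Finset.card_le_card_of_injOn Φ
  · intro γ hγ
    obtain ⟨h2, h3⟩ := sum_div_le i0 hb hm hγ
    rw [Finset.mem_coe, Finset.mem_product, Finset.mem_filter]
    refine ⟨⟨?_, ?_⟩, Finset.mem_univ _⟩
    · rw [mem_A, ← Finset.add_sum_erase _ _ (Finset.mem_univ i0)]
      change rd i0 m b γ i0 + ∑ x ∈ Finset.univ.erase i0, rd i0 m b γ x = m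
      have h4 : rd i0 m b γ i0 = m - ∑ x ∈ Finset.univ.erase i0, γ x / b := by
        simp [rd]
      have h5 : ∑ x ∈ Finset.univ.erase i0, rd i0 m b γ x =
          ∑ x ∈ Finset.univ.erase i0, γ x / b := by
        refine Finset.sum_congr rfl fun x hx => ?_
        have := (Finset.mem_erase.1 hx).1
        simp [rd, this]
      rw [h4, h5]
      omega
    · change m ≤ rd i0 m b γ i0 + T
      have h4 : rd i0 m b γ i0 = m - ∑ x ∈ Finset.univ.erase i0, γ x / b := by
        simp [rd]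
      rw [h4]
      omega
  · intro γ hγ γ' hγ' h
    have h2 : rd i0 m b γ = rd i0 m b γ' := congrArg Prod.fst h
    have h3 : (fun i => (⟨γ i % b, Nat.mod_lt _ hb⟩ : Fin b)) = fun i => ⟨γ' i % b, Nat.mod_lt _ hb⟩ :=
      congrArg Prod.snd h
    have h4 : ∀ i, i ≠ i0 → γ i = γ' i := by
      intro i hi
      have h5 := DFunLike.congr_fun h2 i
      have h6 := congrArg Fin.val (congrFun h3 i)
      simp only [rd, Finsupp.equivFunOnFinite_symm_apply_apply, if_neg hi] at h5
      change γ i % b = γ' i % b at h6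
      rw [← Nat.div_add_mod (γ i) b, ← Nat.div_add_mod (γ' i) b, h5, h6]
    ext i
    by_cases hi : i = i0
    · subst hi
      have h7 := mem_A.1 hγ
      have h8 := mem_A.1 hγ'
      rw [← Finset.add_sum_erase _ _ (Finset.mem_univ i)] at h7 h8
      have h9 : ∑ x ∈ Finset.univ.erase i, γ x = ∑ x ∈ Finset.univ.erase i, γ' x :=
        Finset.sum_congr rfl fun x hx => h4 x (Finset.mem_erase.1 hx).1
      omega
    · exact h4 i hi

include i0 in
theorem card_A_pos (m : ℕ) : 0 < (A I m).card := by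
  apply Finset.card_pos.2
  refine ⟨Finsupp.single i0 m, ?_⟩
  rw [mem_A]
  simp [Finsupp.single_apply]

/-- **Counting**: the gain is larger than any multiple of the rank. -/
theorem exists_gain (k m1 : ℕ) (C : ℤ) : ∃ j : ℕ,
    (A I (m1 + j * k)).card * C <
      ∑ γ : A I (m1 + j * k), max 0 ((j : ℤ) - ((m1 + j * k : ℕ) - γ.1 i0)) := by
  classical
  let b := m1 + 2 * k + 1
  have hb : 0 < b := Nat.succ_pos _
  let B := b ^ Fintype.card I
  have hB : 0 < B := pow_pos hb _
  let T := C.toNat * B + 1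
  have hT : 0 < T := Nat.succ_pos _
  refine ⟨2 * T, ?_⟩
  set m := m1 + 2 * T * k with hm
  have hmb : m ≤ b * T := by
    have : m1 ≤ m1 * T := Nat.le_mul_of_pos_right _ hT
    have e : b * T = m1 * T + 2 * T * k + T := by simp only [b]; ring
    rw [e, hm]
    omega
  have h1 := card_A_le i0 hb hmb
  have h2 : (T : ℤ) * ((A I m).filter fun γ => m ≤ γ i0 + T).card ≤
      ∑ γ : A I m, max 0 (((2 * T : ℕ) : ℤ) - ((m : ℕ) - γ.1 i0)) := by
    rw [Finset.sum_coe_sort (A I m) (fun γ => max 0 (((2 * T : ℕ) : ℤ) - ((m : ℕ) - γ i0)))]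
    calc (T : ℤ) * ((A I m).filter fun γ => m ≤ γ i0 + T).card =
        ∑ γ ∈ (A I m).filter fun γ => m ≤ γ i0 + T, (T : ℤ) := by
          rw [Finset.sum_const, nsmul_eq_mul, mul_comm]
      _ ≤ ∑ γ ∈ (A I m).filter fun γ => m ≤ γ i0 + T,
          max 0 (((2 * T : ℕ) : ℤ) - ((m : ℕ) - γ i0)) := by
          apply Finset.sum_le_sum
          intro γ hγ
          have := (Finset.mem_filter.1 hγ).2
          refine le_trans ?_ (le_max_right _ _)
          push_cast
          omega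
      _ ≤ ∑ γ ∈ A I m, max 0 (((2 * T : ℕ) : ℤ) - ((m : ℕ) - γ i0)) := by
          apply Finset.sum_le_sum_of_subset_of_nonneg (Finset.filter_subset _ _)
          intro γ _ _
          exact le_max_left _ _
  have h3 := card_A_pos i0 m
  set G : ℤ := ∑ γ : A I m, max 0 (((2 * T : ℕ) : ℤ) - ((m : ℕ) - γ.1 i0))
  set S := ((A I m).filter fun γ => m ≤ γ i0 + T).card
  set n := (A I m).card
  -- T n ≤ B G
  have h4 : (T : ℤ) * n ≤ B * G := by
    have h5 : (n : ℤ) ≤ S * B := by exact_mod_cast h1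
    calc (T : ℤ) * n ≤ T * (S * B) := mul_le_mul_of_nonneg_left h5 (by positivity)
      _ = B * (T * S) := by ring
      _ ≤ B * G := mul_le_mul_of_nonneg_left h2 (by positivity)
  have h6 : C * B < T := by
    have : C ≤ C.toNat := Int.self_le_toNat C
    have h7 : C * B ≤ C.toNat * B := mul_le_mul_of_nonneg_right this (by positivity)
    have h8 : (T : ℤ) = C.toNat * B + 1 := by simp only [T]; push_cast; ring
    omega
  have h9 : (n : ℤ) * C * B < B * G := by
    calc (n : ℤ) * C * B = (C * B) * n := by ring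
      _ < T * n := mul_lt_mul_of_pos_right h6 (by exact_mod_cast h3)
      _ ≤ B * G := h4
  have h10 : (0 : ℤ) < B := by exact_mod_cast hB
  by_contra hc
  push Not at hc
  have h11 : (B : ℤ) * G ≤ B * (n * C) := mul_le_mul_of_nonneg_left hc h10.le
  linarith

end count

section main

variable {K : Type} [Field K] [Algebra ℂ K] [IsFF ℂ K] {I : Type} [Fintype I] [DecidableEq I]

/-- **Positivity** in local coordinates. -/
theorem pos_of_bpf {k : ℕ} {V : Set (MvPolynomial I K)} (hV : ∀ v ∈ V, v.IsHomogeneous k)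
    (g : Place ℂ K → Matrix I I K) (hg : ∀ P, (g P).det ≠ 0) (d N c : Place ℂ K →₀ ℤ)
    (hd : ∀ P, P.ord (g P).det = -d P) (hc : ∀ P i j, Ge P (-c P) ((g P)⁻¹ i j))
    (hb : ∀ P, ∀ v ∈ V, ∀ α, Ge P (-N P) (coeff α (ps (g P)⁻¹ v)))
    (P0 : Place ℂ K) (i0 : I)
    (hb0 : ∀ v ∈ V, Ge P0 (1 - N P0) (coeff (Finsupp.single i0 k) (ps (g P0)⁻¹ v)))
    (P1 : Place ℂ K) (hP1 : g P1 = 1)
    (hz : ∀ ζ : I → ℂ, ζ ≠ 0 →
      ∃ v ∈ V, ¬ Ge P1 (1 - N P1) (eval (fun i => algebraMap ℂ K (ζ i)) v)) :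
    0 < k * ddeg d + Fintype.card I * ddeg N := by
  have hb1 : ∀ v ∈ V, ∀ α, Ge P1 (-N P1) (coeff α v) := by
    intro v hv α
    have := hb P1 v hv α
    rwa [hP1, inv_one, ps_one] at this
  obtain ⟨m0, hm0⟩ := gen P1 (N P1) k V hV hb1 hz
  by_contra hneg
  push Not at hneg
  obtain ⟨j, hj⟩ := exists_gain i0 k m0 (Fintype.card I * m0 * ddeg c + m0 * ddeg d)
  have h1 := bound hV le_rfl hm0 g hg d N c hd hc hb P0 i0 hb0 (j := j)
  set G : ℤ := ∑ γ : A I (m0 + j * k), max 0 ((j : ℤ) - ((m0 + j * k : ℕ) - γ.1 i0)) with hG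
  have hG0 : 0 ≤ G := Finset.sum_nonneg fun γ _ => le_max_left _ _
  have hρ : (1 : ℤ) ≤ Fintype.card I := by
    have : Nonempty I := ⟨i0⟩
    exact_mod_cast Fintype.card_pos
  have h2 : G ≤ Fintype.card I * G := le_mul_of_one_le_left hG0 hρ
  have h3 : (Fintype.card I * (j * ddeg N + m0 * ddeg c) + ((m0 + j * k : ℕ) : ℤ) * ddeg d) =
      j * (k * ddeg d + Fintype.card I * ddeg N) +
        (Fintype.card I * m0 * ddeg c + m0 * ddeg d) := by
    push_cast; ring
  rw [h3] at h1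
  have h4 : (j : ℤ) * (k * ddeg d + Fintype.card I * ddeg N) ≤ 0 :=
    mul_nonpos_of_nonneg_of_nonpos (by positivity) hneg
  have h5 : ((A I (m0 + j * k)).card : ℤ) * (j * (k * ddeg d + Fintype.card I * ddeg N) +
        (Fintype.card I * m0 * ddeg c + m0 * ddeg d)) ≤
      (A I (m0 + j * k)).card * (Fintype.card I * m0 * ddeg c + m0 * ddeg d) :=
    mul_le_mul_of_nonneg_left (by linarith) (by positivity)
  linarith

end main

end Pool.Agent.Helper90.FJ
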