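import Pool.Agent.Helper90.FJ.Gen

/-!
The determinant bound (package for helper9, MP_e09b14_ag).
-/

set_option autoImplicit false
set_option linter.unusedSectionVars false

namespace Pool.Agent.Helper90.FJ

open FF Module MvPolynomial Pool.Agent.Helper9.FJ

variable {K : Type} [Field K] [Algebra ℂ K]

section Ge

variable {P : Place ℂ K} {c : ℤ}

theorem ge_sum {ι : Type*} (s : Finset ι) (f : ι → K) (h : ∀ i ∈ s, Ge P c (f i)) :
    Ge P c (∑ i ∈ s, f i) := by
  classical
  induction s using Finset.induction_on with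
  | empty => rw [Finset.sum_empty]; exact ge_zero
  | insert a s ha ih =>
    rw [Finset.sum_insert ha]
    exact ge_add (h a (Finset.mem_insert_self _ _))
      (ih fun i hi => h i (Finset.mem_insert_of_mem hi))

theorem ge_one : Ge P 0 (1 : K) := Or.inr (by rw [P.ord_one])

theorem ge_prod {ι : Type*} (s : Finset ι) (w : ι → ℤ) (f : ι → K)
    (h : ∀ i ∈ s, Ge P (w i) (f i)) : Ge P (∑ i ∈ s, w i) (∏ i ∈ s, f i) := by
  classical
  induction s using Finset.induction_on with
  | empty => rw [Finset.sum_empty, Finset.prod_empty]; exact ge_one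
  | insert a s ha ih =>
    rw [Finset.sum_insert ha, Finset.prod_insert ha]
    exact ge_mul (h a (Finset.mem_insert_self _ _))
      (ih fun i hi => h i (Finset.mem_insert_of_mem hi))

theorem ge_max {a b : ℤ} {x : K} (h1 : Ge P a x) (h2 : Ge P b x) : Ge P (max a b) x := by
  rcases h1 with h | h1
  · exact Or.inl h
  rcases h2 with h | h2
  · exact Or.inl h
  exact Or.inr (max_le h1 h2)

theorem ge_det {B : Type} [Fintype B] [DecidableEq B] (w : B → ℤ) (M : Matrix B B K)
    (h : ∀ α β, Ge P (w α) (M α β)) : Ge P (∑ α, w α) M.det := by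
  rw [Matrix.det_apply]
  apply ge_sum
  intro σ _
  have h1 : Ge P (∑ α, w α) (∏ i, M (σ i) i) := by
    rw [← Equiv.sum_comp σ w]
    exact ge_prod _ _ _ fun i _ => h (σ i) i
  rcases Int.units_eq_one_or (Equiv.Perm.sign σ) with h2 | h2
  · rw [h2, one_smul]; exact h1
  · rw [h2, Units.neg_smul, one_smul]; exact ge_neg h1

end Ge

section CG

variable {I : Type} [Fintype I] [DecidableEq I] {P : Place ℂ K} {i0 : I}

/-- weighted bound for the orders of the coefficients -/
def CG (P : Place ℂ K) (i0 : I) (c e : ℤ) (f : MvPolynomial I K) : Prop :=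
  ∀ α, Ge P (c + e * α i0) (coeff α f)

theorem CG_mul {c c' e : ℤ} {f f' : MvPolynomial I K} (h : CG P i0 c e f) (h' : CG P i0 c' e f') :
    CG P i0 (c + c') e (f * f') := by
  intro α
  rw [coeff_mul]
  apply ge_sum
  rintro ⟨β, γ⟩ hβγ
  rw [Finset.HasAntidiagonal.mem_antidiagonal] at hβγ
  have h1 := ge_mul (h β) (h' γ)
  have h2 : α i0 = β i0 + γ i0 := by rw [← hβγ]; rfl
  rw [h2]
  refine ge_mono (le_of_eq ?_) h1
  push_cast
  ring

theorem CG_sum {c e : ℤ} {ι : Type*} (s : Finset ι) (f : ι → MvPolynomial I K)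
    (h : ∀ i ∈ s, CG P i0 c e (f i)) : CG P i0 c e (∑ i ∈ s, f i) := by
  intro α
  rw [coeff_sum]
  exact ge_sum _ _ fun i hi => h i hi α

theorem CG_one : CG P i0 0 0 (1 : MvPolynomial I K) := by
  intro α
  rw [zero_mul, add_zero, coeff_one]
  split_ifs
  · exact ge_one
  · exact ge_zero

theorem CG_prod {ι : Type*} (s : Finset ι) (w : ι → ℤ) (f : ι → MvPolynomial I K)
    (h : ∀ i ∈ s, CG P i0 (w i) 0 (f i)) : CG P i0 (∑ i ∈ s, w i) 0 (∏ i ∈ s, f i) := by
  classical
  induction s using Finset.induction_on with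
  | empty => rw [Finset.sum_empty, Finset.prod_empty]; exact CG_one
  | insert a s ha ih =>
    rw [Finset.sum_insert ha, Finset.prod_insert ha]
    exact CG_mul (h a (Finset.mem_insert_self _ _))
      (ih fun i hi => h i (Finset.mem_insert_of_mem hi))

theorem CG_pow {c : ℤ} {f : MvPolynomial I K} (h : CG P i0 c 0 f) (n : ℕ) :
    CG P i0 (n * c) 0 (f ^ n) := by
  induction n with
  | zero => rw [pow_zero, Nat.cast_zero, zero_mul]; exact CG_one
  | succ n ih =>
    rw [pow_succ]
    have := CG_mul ih h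
    have e : ((n + 1 : ℕ) : ℤ) * c = n * c + c := by push_cast; ring
    rwa [e]

theorem CG_ps_monomial {J : Type} [Fintype J] {c : ℤ} {h : Matrix J I K}
    (hh : ∀ i j, Ge P c (h i j)) (β : J →₀ ℕ) :
    CG P i0 ((∑ i, β i : ℕ) * c) 0 (ps h (monomial β 1)) := by
  rw [MvPolynomial.monomial_eq, C_1, one_mul, Finsupp.prod_fintype _ _ (fun i => pow_zero _),
    _root_.map_prod]
  have e : ((∑ i, β i : ℕ) : ℤ) * c = ∑ i, (β i : ℤ) * c := by
    push_cast
    rw [Finset.sum_mul]
  rw [e]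
  apply CG_prod
  intro i _
  rw [_root_.map_pow, ps_X]
  apply CG_pow
  apply CG_sum
  intro l _ α
  rw [zero_mul, add_zero, coeff_C_mul, coeff_X]
  split_ifs
  · rw [mul_one]; exact hh i l
  · rw [mul_zero]; exact ge_zero

theorem le_of_mem_A {m : ℕ} {α : I →₀ ℕ} (h : α ∈ A I m) (i : I) : α i ≤ m := by
  rw [mem_A] at h
  rw [← h]
  exact Finset.single_le_sum (f := fun i => α i) (fun _ _ => Nat.zero_le _) (Finset.mem_univ i)

/-- from the plain bound to the weighted bound -/
theorem CG_of_hom {c : ℤ} {m : ℕ} {f : MvPolynomial I K} (hf : f.IsHomogeneous m)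
    (h : CG P i0 c 0 f) : CG P i0 (c - m) 1 f := by
  intro α
  by_cases hα : α ∈ A I m
  · have h1 := h α
    have h2 := le_of_mem_A hα i0
    refine ge_mono ?_ h1
    rw [zero_mul, add_zero, one_mul]
    omega
  · rw [hf.coeff_eq_zero fun h => hα (mem_A'.2 h)]
    exact ge_zero

end CG

section PR

variable {I : Type} [Fintype I] [DecidableEq I]

/-- products of `j` elements of `V` and a monomial of degree `m1` -/
def PR (V : Set (MvPolynomial I K)) (m1 : ℕ) : ℕ → Set (MvPolynomial I K)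
  | 0 => {f | ∃ β : A I m1, f = monomial β.1 1}
  | j + 1 => {g | ∃ v ∈ V, ∃ f ∈ PR V m1 j, g = v * f}

variable {V : Set (MvPolynomial I K)} {k m1 : ℕ}

theorem PR_hom (hV : ∀ v ∈ V, v.IsHomogeneous k) (j : ℕ) :
    ∀ f ∈ PR V m1 j, f.IsHomogeneous (m1 + j * k) := by
  induction j with
  | zero =>
    rintro f ⟨β, rfl⟩
    rw [zero_mul, add_zero]
    exact mono_hom β
  | succ j ih =>
    rintro f ⟨v, hv, f, hf, rfl⟩
    have e : m1 + (j + 1) * k = k + (m1 + j * k) := by ring
    rw [e]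
    exact (hV v hv).mul (ih f hf)

theorem PR_span {m0 : ℕ} (h01 : m0 ≤ m1)
    (hgen : ∀ m, m0 ≤ m → ∀ f : MvPolynomial I K, f.IsHomogeneous (m + k) →
      f ∈ Submodule.span K
        {g | ∃ v ∈ V, ∃ h : MvPolynomial I K, h.IsHomogeneous m ∧ g = v * h}) (j : ℕ) :
    ∀ f : MvPolynomial I K, f.IsHomogeneous (m1 + j * k) → f ∈ Submodule.span K (PR V m1 j) := by
  induction j with
  | zero =>
    intro f hf
    rw [zero_mul, add_zero] at hf
    rw [hom_eq_sum hf]
    apply Submodule.sum_mem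
    intro γ _
    have : (monomial γ.1 (coeff γ.1 f) : MvPolynomial I K) = coeff γ.1 f • monomial γ.1 1 := by
      rw [smul_monomial, smul_eq_mul, mul_one]
    rw [this]
    exact Submodule.smul_mem _ _ (Submodule.subset_span ⟨γ, rfl⟩)
  | succ j ih =>
    intro f hf
    have e : m1 + (j + 1) * k = (m1 + j * k) + k := by ring
    rw [e] at hf
    have h1 := hgen _ (h01.trans (Nat.le_add_right _ _)) f hf
    refine Submodule.span_le.2 ?_ h1
    rintro _ ⟨v, hv, h, hh, rfl⟩
    have h2 := ih h hh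
    have h3 : v * h ∈ (Submodule.span K (PR V m1 j)).map (LinearMap.mulLeft K v) :=
      ⟨h, h2, rfl⟩
    rw [Submodule.map_span] at h3
    refine Submodule.span_mono ?_ h3
    rintro _ ⟨f, hf, rfl⟩
    exact ⟨v, hv, f, hf, rfl⟩

theorem PR_CG {P : Place ℂ K} {i0 : I} {h : Matrix I I K} {cv cb e : ℤ}
    (hv : ∀ v ∈ V, CG P i0 cv e (ps h v))
    (hb : ∀ β ∈ A I m1, CG P i0 cb e (ps h (monomial β 1))) (j : ℕ) :
    ∀ f ∈ PR V m1 j, CG P i0 (j * cv + cb) e (ps h f) := by
  induction j with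
  | zero =>
    rintro f ⟨β, rfl⟩
    rw [Nat.cast_zero, zero_mul, zero_add]
    exact hb β.1 β.2
  | succ j ih =>
    rintro f ⟨v, hv', f, hf, rfl⟩
    rw [_root_.map_mul]
    have := CG_mul (hv v hv') (ih f hf)
    have e : ((j + 1 : ℕ) : ℤ) * cv + cb = cv + (j * cv + cb) := by push_cast; ring
    rwa [e]

theorem exists_family {m : ℕ} (S : Set (MvPolynomial I K))
    (hspan : ∀ f : MvPolynomial I K, f.IsHomogeneous m → f ∈ Submodule.span K S) :
    ∃ f : A I m → MvPolynomial I K, (∀ γ, f γ ∈ S) ∧ (cm m f).det ≠ 0 := by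
  classical
  let cv : MvPolynomial I K →ₗ[K] (A I m → K) :=
    LinearMap.pi fun α => MvPolynomial.lcoeff K α.1
  have hcv : ∀ f α, cv f α = coeff α.1 f := fun f α => rfl
  have hs : (⊤ : Submodule K (A I m → K)) ≤ Submodule.span K (cv '' S) := by
    rw [← Submodule.map_span]
    rintro x -
    refine ⟨∑ γ : A I m, monomial γ.1 (x γ), ?_, ?_⟩
    · apply Submodule.sum_mem
      intro γ _
      apply hspan
      exact isHomogeneous_monomial _ (mem_A'.1 γ.2)
    · ext α
      rw [hcv, coeff_sum, Finset.sum_eq_single α]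
      · simp
      · intro β _ hβ
        rw [coeff_monomial, if_neg]
        intro h
        exact hβ (Subtype.ext h)
      · intro h; exact absurd (Finset.mem_univ _) h
  let b := Module.Basis.ofSpan hs
  let e := (Pi.basisFun K (A I m)).indexEquiv b
  have h1 : ∀ γ, b (e γ) ∈ cv '' S := fun γ =>
    Module.Basis.ofSpan_subset hs (Set.mem_range_self _)
  choose f hf1 hf2 using h1
  refine ⟨f, hf1, ?_⟩
  have h2 : LinearIndependent K (cm m f).col := by
    have h3 : (cm m f).col = fun γ => b (e γ) := by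
      ext γ α
      rw [← hf2]
      rfl
    rw [h3]
    exact b.linearIndependent.comp e e.injective
  have h4 := (Matrix.linearIndependent_cols_iff_isUnit).1 h2
  exact ((Matrix.isUnit_iff_isUnit_det _).1 h4).ne_zero

end PR

section main

variable [IsFF ℂ K] {I : Type} [Fintype I] [DecidableEq I]

/-- **The determinant bound.** -/
theorem bound {k m1 m0 j : ℕ} {V : Set (MvPolynomial I K)} (hV : ∀ v ∈ V, v.IsHomogeneous k)
    (h01 : m0 ≤ m1)
    (hgen : ∀ m, m0 ≤ m → ∀ f : MvPolynomial I K, f.IsHomogeneous (m + k) →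
      f ∈ Submodule.span K
        {g | ∃ v ∈ V, ∃ h : MvPolynomial I K, h.IsHomogeneous m ∧ g = v * h})
    (g : Place ℂ K → Matrix I I K) (hg : ∀ P, (g P).det ≠ 0) (d N c : Place ℂ K →₀ ℤ)
    (hd : ∀ P, P.ord (g P).det = -d P) (hc : ∀ P i j, Ge P (-c P) ((g P)⁻¹ i j))
    (hb : ∀ P, ∀ v ∈ V, ∀ α, Ge P (-N P) (coeff α (ps (g P)⁻¹ v)))
    (P0 : Place ℂ K) (i0 : I)
    (hb0 : ∀ v ∈ V, Ge P0 (1 - N P0) (coeff (Finsupp.single i0 k) (ps (g P0)⁻¹ v))) :
    (Fintype.card I : ℤ) * ∑ γ : A I (m1 + j * k), max 0 ((j : ℤ) - ((m1 + j * k : ℕ) - γ.1 i0)) ≤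
      (A I (m1 + j * k)).card *
        (Fintype.card I * (j * ddeg N + m1 * ddeg c) + (m1 + j * k : ℕ) * ddeg d) := by
  classical
  have : CharZero K := charZero_of_injective_algebraMap (algebraMap ℂ K).injective
  have : Nonempty I := ⟨i0⟩
  set m := m1 + j * k with hm
  obtain ⟨f, hf1, hf2⟩ := exists_family (m := m) (PR V m1 j) (PR_span h01 hgen j)
  have hfh : ∀ γ, (f γ).IsHomogeneous m := fun γ => PR_hom hV j _ (hf1 γ)
  set D := (cm m f).det with hD
  have hdet : ∀ P, (g P)⁻¹.det ≠ 0 := by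
    intro P
    rw [Matrix.det_nonsing_inv, Ring.inverse_eq_inv]
    exact inv_ne_zero (hg P)
  have hT : ∀ P : Place ℂ K, (TT m (g P)⁻¹).det ≠ 0 ∧
      (Fintype.card I : ℤ) * P.ord (TT m (g P)⁻¹).det = (m * (A I m).card : ℕ) * d P := by
    intro P
    have h1 := det_TT m (g P)⁻¹ (hdet P)
    have h2 : (TT m (g P)⁻¹).det ≠ 0 := by
      intro h0
      have h3 := pow_ne_zero (m * (A I m).card) (hdet P)
      rw [← h1, h0] at h3
      have h4 : Fintype.card I ≠ 0 := Fintype.card_ne_zero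
      exact h3 (zero_pow h4)
    refine ⟨h2, ?_⟩
    have h5 := congrArg P.ord h1
    rw [P.ord_pow, P.ord_pow, Matrix.det_nonsing_inv, Ring.inverse_eq_inv, P.ord_inv, hd P,
      neg_neg] at h5
    exact h5
  have hDP : ∀ P : Place ℂ K, (cm m fun γ => ps (g P)⁻¹ (f γ)).det =
      (TT m (g P)⁻¹).det * D := by
    intro P
    rw [← TT_mul_cm m (g P)⁻¹ f hfh, Matrix.det_mul]
  have hord : ∀ P : Place ℂ K, ∀ w : A I m → ℤ,
      (∀ α γ, Ge P (w α) (coeff α.1 (ps (g P)⁻¹ (f γ)))) →
      (Fintype.card I : ℤ) * ∑ α, w α ≤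
        (m * (A I m).card : ℕ) * d P + Fintype.card I * P.ord D := by
    intro P w hw
    have h1 := ge_det w (cm m fun γ => ps (g P)⁻¹ (f γ)) hw
    rw [hDP P] at h1
    have h2 := h1.resolve_left (mul_ne_zero (hT P).1 hf2)
    rw [P.ord_mul (hT P).1 hf2] at h2
    rw [← (hT P).2, ← mul_add]
    exact mul_le_mul_of_nonneg_left h2 (by positivity)
  -- the plain bounds
  have hbeta : ∀ P : Place ℂ K, ∀ β ∈ A I m1,
      CG P i0 (m1 * (-c P)) 0 (ps (g P)⁻¹ (monomial β 1)) := by
    intro P β hβ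
    have := CG_ps_monomial (i0 := i0) (hc P) β
    rwa [mem_A.1 hβ] at this
  have hplain : ∀ P : Place ℂ K, ∀ γ,
      CG P i0 (j * (-N P) + m1 * (-c P)) 0 (ps (g P)⁻¹ (f γ)) := by
    intro P γ
    refine PR_CG ?_ (hbeta P) j _ (hf1 γ)
    intro v hv α
    rw [zero_mul, add_zero]
    exact hb P v hv α
  have hweight : ∀ γ, CG P0 i0 (j * (1 - N P0 - k) + (m1 * (-c P0) - m1)) 1
      (ps (g P0)⁻¹ (f γ)) := by
    intro γ
    refine PR_CG ?_ ?_ j _ (hf1 γ)
    · intro v hv α
      have hvh := ps_hom (g P0)⁻¹ (hV v hv)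
      by_cases hα : α ∈ A I k
      · have h1 := le_of_mem_A hα i0
        rcases h1.lt_or_eq with h2 | h2
        · refine ge_mono ?_ (hb P0 v hv α)
          rw [one_mul]
          omega
        · have h3 : α = Finsupp.single i0 k := by
            ext i
            by_cases hi : i = i0
            · subst hi; rw [h2, Finsupp.single_eq_same]
            · rw [Finsupp.single_eq_of_ne hi]
              rw [mem_A, ← Finset.add_sum_erase _ _ (Finset.mem_univ i0), h2] at hα
              have h4 : ∑ x ∈ Finset.univ.erase i0, α x = 0 := by omega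
              exact (Finset.sum_eq_zero_iff.1 h4) i
                (Finset.mem_erase.2 ⟨hi, Finset.mem_univ _⟩)
          refine ge_mono ?_ (h3 ▸ hb0 v hv)
          rw [one_mul]
          omega
      · rw [hvh.coeff_eq_zero fun h => hα (mem_A'.2 h)]
        exact ge_zero
    · intro β hβ
      exact CG_of_hom (ps_hom _ (isHomogeneous_monomial _ (mem_A'.1 hβ))) (hbeta P0 β hβ)
  -- the divisor
  set n : ℤ := ((A I m).card : ℤ) with hn
  set ρ : ℤ := (Fintype.card I : ℤ) with hρ
  set G : ℤ := ∑ γ : A I m, max 0 ((j : ℤ) - ((m : ℕ) - γ.1 i0)) with hG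
  have hplain' : ∀ P : Place ℂ K, 0 ≤ n * (ρ * (j * N P + m1 * c P) + m * d P) + ρ * P.ord D := by
    intro P
    have h1 := hord P (fun _ => j * (-N P) + m1 * (-c P)) (by
      intro α γ
      have := hplain P γ α.1
      rwa [zero_mul, add_zero] at this)
    rw [Finset.sum_const, Finset.card_univ, Fintype.card_coe, nsmul_eq_mul, ← hn] at h1
    push_cast at h1
    rw [← hn] at h1
    linarith
  have hweight' : 0 ≤ n * (ρ * (j * N P0 + m1 * c P0) + m * d P0) + ρ * P0.ord D - ρ * G := by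
    have h1 := hord P0 (fun α => (j * (-N P0) + m1 * (-c P0)) +
        max 0 ((j : ℤ) - ((m : ℕ) - α.1 i0))) (by
      intro α γ
      have h2 := hplain P0 γ α.1
      rw [zero_mul, add_zero] at h2
      have h3 := hweight γ α.1
      refine ge_mono (le_of_eq ?_) (ge_max h2 h3)
      have hmz : (m : ℤ) = m1 + j * k := by rw [hm]; push_cast; ring
      rw [← max_add_add_left, add_zero]
      congr 1
      linarith)
    rw [Finset.sum_add_distrib, Finset.sum_const, Finset.card_univ, Fintype.card_coe,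
      nsmul_eq_mul, ← hn, ← hG] at h1
    push_cast at h1
    rw [← hn] at h1
    linarith
  have hB : (0 : Place ℂ K →₀ ℤ) ≤ (n * ρ * j) • N + (n * ρ * m1) • c + (n * m) • d +
      ρ • divisor ℂ D - Finsupp.single P0 (ρ * G) := by
    intro P
    rw [Finsupp.sub_apply, Finsupp.add_apply, Finsupp.add_apply, Finsupp.add_apply,
      Finsupp.smul_apply, Finsupp.smul_apply, Finsupp.smul_apply, Finsupp.smul_apply,
      divisor_apply, Finsupp.zero_apply]
    simp only [smul_eq_mul]
    by_cases hP : P = P0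
    · subst hP
      rw [Finsupp.single_eq_same]
      linarith
    · rw [Finsupp.single_eq_of_ne hP]
      have := hplain' P
      linarith
  have hz : ∀ (z : ℤ) (D : Place ℂ K →₀ ℤ), ddeg (z • D) = z * ddeg D := by
    intro z D
    have h1 : ∀ x : Place ℂ K →₀ ℤ, ddeg x = (AddMonoidHom.mk' (ddeg (k := ℂ) (K := K)) ddeg_add) x :=
      fun x => rfl
    rw [h1, h1, _root_.map_zsmul, smul_eq_mul]
  have h1 := ddeg_nonneg hB
  rw [ddeg_sub, ddeg_add, ddeg_add, ddeg_add, hz, hz, hz, hz, ddeg_divisor, ddeg_single_one] at h1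
  linarith

end main

end Pool.Agent.Helper90.FJ
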